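import Pool.Agent.Lib.MP_c8757e_WG.Sec

/-!
# WG: the two vector fields
-/

open MeasureTheory Filter Topology

noncomputable section

namespace Pool.Agent.Lib.MP_c8757e_WG

open Pool.Agent.Lib.MP_c8757e_mp

/-! ### rules for complex valued functions -/

section Rules

variable {d : ℕ}

theorem Sm.mulC {f g : E d → ℂ} (hf : Sm f) (hg : Sm g) : Sm (fun x => f x * g x) :=
  ContDiff.mul hf hg

theorem Sm.cstC {F : Type*} [NormedAddCommGroup F] [NormedSpace ℝ F] (c : F) :
    Sm (fun _ : E d => c) := contDiff_const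

theorem D_mulC {f g : E d → ℂ} (hf : Sm f) (hg : Sm g) (j : Fin d) (x : E d) :
    D j (fun x => f x * g x) x = D j f x * g x + f x * D j g x := by
  unfold D
  rw [fderiv_fun_mul (hf.diff x) (hg.diff x)]
  simp only [add_apply, smul_apply, smul_eq_mul]
  ring

theorem D_cmulC (c : ℂ) {f : E d → ℂ} (hf : Sm f) (j : Fin d) (x : E d) :
    D j (fun x => c * f x) x = c * D j f x := by
  unfold D
  rw [fderiv_const_mul (hf.diff x)]
  simp

/-- derivatives of a function that is quasi-invariant under a translation -/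
theorem D_shift {f φ : E d → ℂ} (hf : Sm f) (hφ : Sm φ) {w : E d}
    (h : ∀ x, f (x + w) = φ x * f x) (j : Fin d) (x : E d) :
    D j f (x + w) = D j φ x * f x + φ x * D j f x := by
  have e : (fun y => f (y + w)) = fun y => φ y * f y := funext h
  have h1 : D j f (x + w) = D j (fun y => f (y + w)) x := by
    unfold D
    rw [fderiv_comp_add_right w]
  rw [h1, e, D_mulC hφ hf]

/-- derivative in a direction in which `f` is quasi-invariant -/
theorem fderiv_line {f : E d → ℂ} (hf : Sm f) {w : E d} {c : ℂ}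
    (h : ∀ x (s : ℝ), f (x + s • w) = Complex.exp (c * s) * f x) (x : E d) :
    fderiv ℝ f x w = c * f x := by
  have h1 : HasDerivAt (fun s : ℝ => f (x + s • w)) (fderiv ℝ f (x + (0 : ℝ) • w) w) 0 := by
    have h2 : HasDerivAt (fun s : ℝ => x + s • w) w 0 := by
      simpa using ((hasDerivAt_id (0 : ℝ)).smul_const w).const_add x
    exact (hf.diff _).hasFDerivAt.comp_hasDerivAt (0 : ℝ) h2
  have h3 : (fun s : ℝ => f (x + s • w)) = fun s : ℝ => Complex.exp (c * s) * f x :=
    funext fun s => h x s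
  rw [h3] at h1
  have h4 : HasDerivAt (fun s : ℝ => Complex.exp (c * s) * f x)
      ((Complex.exp (c * ((0 : ℝ) : ℂ)) * (c * 1)) * f x) 0 := by
    have h5 : HasDerivAt (fun s : ℝ => c * (s : ℂ)) (c * 1) 0 :=
      (Complex.ofRealCLM.hasDerivAt (x := (0 : ℝ))).const_mul c
    exact (h5.cexp).mul_const (f x)
  have h6 := h1.unique h4
  simpa using h6

end Rules

/-- the covariant derivative of the section -/
def R (k : Fin 2) (x : E 4) : ℂ :=
  (1 / 2) * (D 0 (U k) x + Complex.I * D 1 (U k) x) - Complex.I * Real.pi * (x 1 : ℂ) * U k x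

/-- square of the length of the section -/
def NN (x : E 4) : ℝ := Complex.normSq (U 0 x) + Complex.normSq (U 1 x)

/-- the fibre components of the complex vector field -/
def bet (k : Fin 2) (x : E 4) : ℂ :=
  Complex.I / (2 * Real.pi) * (starRingEnd ℂ (U k x) * (R 0 x + R 1 x)) * ((NN x)⁻¹ : ℝ)

def aa (k : Fin 2) (x : E 4) : ℝ := 2 * (bet k x).re

def cc (k : Fin 2) (x : E 4) : ℝ := 2 * (bet k x).im

/-- real part of the vector field -/
def X : Fin 4 → E 4 → ℝ := ![fun _ => 1, fun _ => 0, aa 0, aa 1]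

/-- imaginary part of the vector field -/
def Y : Fin 4 → E 4 → ℝ := ![fun _ => 0, fun _ => 1, cc 0, cc 1]

theorem R_smooth (k : Fin 2) : Sm (R k) := by
  have h1 : Sm (fun x : E 4 => ((x 1 : ℝ) : ℂ)) :=
    Complex.ofRealCLM.contDiff.comp (Sm_coord 1)
  have hU := U_smooth k
  exact ((Sm.cstC _).mulC ((hU.D 0).add ((Sm.cstC _).mulC (hU.D 1)))).sub
    ((((Sm.cstC Complex.I).mulC (Sm.cstC (Real.pi : ℂ))).mulC h1).mulC hU)

theorem normSq_smooth (k : Fin 2) : Sm (fun x => Complex.normSq (U k x)) := by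
  have hre : Sm (fun x => (U k x).re) := Complex.reCLM.contDiff.comp (U_smooth k)
  have him : Sm (fun x => (U k x).im) := Complex.imCLM.contDiff.comp (U_smooth k)
  have e : (fun x => Complex.normSq (U k x)) =
      fun x => (U k x).re • (U k x).re + (U k x).im • (U k x).im :=
    funext fun x => Complex.normSq_apply _
  rw [e]
  exact (hre.smul hre).add (him.smul him)

theorem NN_smooth : Sm NN := (normSq_smooth 0).add (normSq_smooth 1)

theorem NN_pos (x : E 4) : 0 < NN x := U_pos x

theorem bet_smooth (k : Fin 2) : Sm (bet k) := by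
  have h1 : Sm (fun x => starRingEnd ℂ (U k x)) :=
    (Complex.conjCLE : ℂ →L[ℝ] ℂ).contDiff.comp (U_smooth k)
  have h2 : Sm (fun x => (NN x)⁻¹) := ContDiff.inv NN_smooth fun x => (NN_pos x).ne'
  have h3 : Sm (fun x => (((NN x)⁻¹ : ℝ) : ℂ)) := Complex.ofRealCLM.contDiff.comp h2
  exact ((Sm.cstC _).mulC (h1.mulC ((R_smooth 0).add (R_smooth 1)))).mulC h3

theorem aa_smooth (k : Fin 2) : Sm (aa k) :=
  (Sm.cstC (2 : ℝ)).smul (Complex.reCLM.contDiff.comp (bet_smooth k))

theorem cc_smooth (k : Fin 2) : Sm (cc k) :=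
  (Sm.cstC (2 : ℝ)).smul (Complex.imCLM.contDiff.comp (bet_smooth k))

theorem X_smooth (j : Fin 4) : Sm (X j) := by
  fin_cases j
  · exact Sm.cstC (1 : ℝ)
  · exact Sm.cstC (0 : ℝ)
  · exact aa_smooth 0
  · exact aa_smooth 1

theorem Y_smooth (j : Fin 4) : Sm (Y j) := by
  fin_cases j
  · exact Sm.cstC (0 : ℝ)
  · exact Sm.cstC (1 : ℝ)
  · exact cc_smooth 0
  · exact cc_smooth 1

/-- quasi-invariance of the sections implies invariance of the field -/
theorem bet_inv {w : E 4} {φ : E 4 → ℂ} (h1 : ∀ x, Complex.normSq (φ x) = 1)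
    (hU : ∀ k x, U k (x + w) = φ x * U k x) (hR : ∀ k x, R k (x + w) = φ x * R k x)
    (k : Fin 2) : Inv w (bet k) := by
  intro x
  have hN : NN (x + w) = NN x := by
    unfold NN
    rw [hU, hU, Complex.normSq_mul, Complex.normSq_mul, h1]
    ring
  have hφ : starRingEnd ℂ (φ x) * φ x = 1 := by
    rw [mul_comm, Complex.mul_conj, h1]
    simp
  unfold bet
  rw [hN, hU, hR, hR, map_mul]
  congr 2
  calc starRingEnd ℂ (φ x) * starRingEnd ℂ (U k x) * (φ x * R 0 x + φ x * R 1 x)
      = (starRingEnd ℂ (φ x) * φ x) * (starRingEnd ℂ (U k x) * (R 0 x + R 1 x)) := by ring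
    _ = _ := by rw [hφ, one_mul]

/-- the direction with coordinates 0, 0, 1, 1 -/
def Jv : E 4 := EuclideanSpace.single 2 1 + EuclideanSpace.single 3 1

theorem U_J (k : Fin 2) (x : E 4) (s : ℝ) :
    U k (x + s • Jv) = Complex.exp (2 * Real.pi * Complex.I * s) * U k x := by
  have e : x + s • Jv = (x + s • (EuclideanSpace.single (tk 0) (1 : ℝ) : E 4)) +
      s • (EuclideanSpace.single (tk 1) (1 : ℝ) : E 4) := by
    have h2 : tk 0 = 2 := rfl
    have h3 : tk 1 = 3 := rfl
    rw [h2, h3, Jv, smul_add, add_assoc]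
  rw [e, U_fib, U_fib]
  fin_cases k <;> simp

theorem bet_inv_J (k : Fin 2) (s : ℝ) : Inv (s • Jv) (bet k) := by
  refine bet_inv (φ := fun _ => Complex.exp (2 * Real.pi * Complex.I * s)) ?_ (fun k x => U_J k x s)
    ?_ k
  · intro x
    rw [Complex.normSq_eq_norm_sq]
    have : (2 * Real.pi * Complex.I * s : ℂ) = ((2 * Real.pi * s : ℝ) : ℂ) * Complex.I := by
      push_cast
      ring
    rw [this, Complex.norm_exp_ofReal_mul_I]
    norm_num
  · intro k x
    have h0 : ∀ j, D j (U k) (x + s • Jv) =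
        Complex.exp (2 * Real.pi * Complex.I * s) * D j (U k) x := by
      intro j
      rw [D_shift (φ := fun _ => Complex.exp (2 * Real.pi * Complex.I * s)) (U_smooth k)
        (Sm.cstC _) (fun y => U_J k y s) j x]
      have : D j (fun _ : E 4 => Complex.exp (2 * Real.pi * Complex.I * s)) x = 0 := by
        unfold D
        simp
      rw [this]
      ring
    have h1 : (x + s • Jv) 1 = x 1 := by
      simp [Jv]
    unfold R
    rw [h0, h0, h1, U_J]
    ring

theorem bet_inv_lat (k : Fin 2) (n : Fin 4 → ℤ) : Inv (latE n) (bet k) := by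
  have hφs : Sm (fun x : E 4 => Complex.exp (2 * Real.pi * Complex.I * (n 1 : ℂ) * (x 0 : ℂ))) :=
    Complex.contDiff_exp.comp
      ((Sm.cstC _).mulC (Complex.ofRealCLM.contDiff.comp (Sm_coord 0)))
  have hD : ∀ (j : Fin 4) (x : E 4),
      D j (fun x : E 4 => Complex.exp (2 * Real.pi * Complex.I * (n 1 : ℂ) * (x 0 : ℂ))) x =
        (if j = 0 then 2 * Real.pi * Complex.I * (n 1 : ℂ) else 0) *
          Complex.exp (2 * Real.pi * Complex.I * (n 1 : ℂ) * (x 0 : ℂ)) := by
    intro j x
    refine fderiv_line hφs (fun y s => ?_) x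
    have e : (y + s • (EuclideanSpace.single j (1 : ℝ) : E 4)) 0 =
        y 0 + s * (if j = 0 then 1 else 0) := by
      simp [eq_comm]
    rw [e]
    by_cases hj : j = 0
    · simp only [hj, if_true, mul_one]
      rw [← Complex.exp_add]
      congr 1
      push_cast
      ring
    · simp [hj]
  refine bet_inv (φ := fun x : E 4 =>
    Complex.exp (2 * Real.pi * Complex.I * (n 1 : ℂ) * (x 0 : ℂ))) ?_ (fun k x => U_lat k x n)
    ?_ k
  · intro x
    rw [Complex.normSq_eq_norm_sq]
    have : (2 * Real.pi * Complex.I * (n 1 : ℂ) * (x 0 : ℂ)) =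
        ((2 * Real.pi * n 1 * x 0 : ℝ) : ℂ) * Complex.I := by
      push_cast
      ring
    rw [this, Complex.norm_exp_ofReal_mul_I]
    norm_num
  · intro k x
    have h0 := fun j => D_shift (U_smooth k) hφs (fun y => U_lat k y n) j x
    have h1 : (x + latE n) 1 = x 1 + (n 1 : ℝ) := rfl
    unfold R
    rw [h0, h0, h1, hD, hD, U_lat]
    simp only [if_true, one_ne_zero, if_false]
    push_cast
    ring

theorem X_inv {w : E 4} (h : ∀ k, Inv w (bet k)) (j : Fin 4) : Inv w (X j) := by
  intro x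
  fin_cases j
  · rfl
  · rfl
  · change 2 * (bet 0 (x + w)).re = 2 * (bet 0 x).re
    rw [h 0 x]
  · change 2 * (bet 1 (x + w)).re = 2 * (bet 1 x).re
    rw [h 1 x]

theorem Y_inv {w : E 4} (h : ∀ k, Inv w (bet k)) (j : Fin 4) : Inv w (Y j) := by
  intro x
  fin_cases j
  · rfl
  · rfl
  · change 2 * (bet 0 (x + w)).im = 2 * (bet 0 x).im
    rw [h 0 x]
  · change 2 * (bet 1 (x + w)).im = 2 * (bet 1 x).im
    rw [h 1 x]

end Pool.Agent.Lib.MP_c8757e_WG
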