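import Pool.Agent.Lib.MP_c8757e_mp.Base

/-!
# WG: calculus of vector fields with real coefficients on `ℝ^d`
-/

open MeasureTheory Filter Topology

noncomputable section

namespace Pool.Agent.Lib.MP_c8757e_WG

open Pool.Agent.Lib.MP_c8757e_mp

variable {d : ℕ} {F : Type*} [NormedAddCommGroup F] [NormedSpace ℝ F]

/-- smooth functions -/
def Sm (f : E d → F) : Prop := ContDiff ℝ (⊤ : ℕ∞) f

/-- derivatives in the coordinate directions -/
def D (j : Fin d) (f : E d → F) (x : E d) : F := fderiv ℝ f x (EuclideanSpace.single j 1)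

theorem pd_eq (j : Fin d) (f : E d → ℂ) : pd j f = D j f := rfl

/-- the vector field `V` acts on `f` -/
def L (V : Fin d → E d → ℝ) (f : E d → F) (x : E d) : F := ∑ j, V j x • D j f x

/-- divergence -/
def dv (V : Fin d → E d → ℝ) (x : E d) : ℝ := ∑ j, D j (V j) x

/-- Lie bracket -/
def br (V W : Fin d → E d → ℝ) (j : Fin d) (x : E d) : ℝ := L V (W j) x - L W (V j) x

/-- invariance under the translation by `w` -/
def Inv (w : E d) {Y : Type*} (f : E d → Y) : Prop := ∀ x, f (x + w) = f x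

/-! ### smoothness -/

theorem Sm.diff {f : E d → F} (hf : Sm f) : Differentiable ℝ f :=
  ContDiff.differentiable hf (by simp)

theorem Sm.D {f : E d → F} (hf : Sm f) (j : Fin d) : Sm (D j f) :=
  (ContDiff.fderiv_right hf (m := (⊤ : ℕ∞)) (by simp)).clm_apply contDiff_const

theorem Sm.add {f g : E d → F} (hf : Sm f) (hg : Sm g) : Sm (fun x => f x + g x) :=
  ContDiff.add hf hg

theorem Sm.sub {f g : E d → F} (hf : Sm f) (hg : Sm g) : Sm (fun x => f x - g x) :=
  ContDiff.sub hf hg

theorem Sm.smul {a : E d → ℝ} {f : E d → F} (ha : Sm a) (hf : Sm f) : Sm (fun x => a x • f x) :=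
  ContDiff.smul ha hf

theorem Sm.sum {ι : Type*} (s : Finset ι) {f : ι → E d → F} (hf : ∀ i, Sm (f i)) :
    Sm (fun x => ∑ i ∈ s, f i x) :=
  ContDiff.sum fun i _ => hf i

theorem Sm.L {V : Fin d → E d → ℝ} {f : E d → F} (hV : ∀ j, Sm (V j)) (hf : Sm f) :
    Sm (L V f) :=
  Sm.sum _ fun j => (hV j).smul (hf.D j)

theorem Sm.dv {V : Fin d → E d → ℝ} (hV : ∀ j, Sm (V j)) : Sm (dv V) :=
  Sm.sum _ fun j => (hV j).D j

theorem Sm.br {V W : Fin d → E d → ℝ} (hV : ∀ j, Sm (V j)) (hW : ∀ j, Sm (W j)) (j : Fin d) :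
    Sm (br V W j) :=
  (Sm.L hV (hW j)).sub (Sm.L hW (hV j))

/-! ### rules for `D` -/

theorem D_add {f g : E d → F} (hf : Sm f) (hg : Sm g) (j : Fin d) (x : E d) :
    D j (fun x => f x + g x) x = D j f x + D j g x := by
  unfold D
  rw [fderiv_fun_add (hf.diff x) (hg.diff x)]
  rfl

theorem D_sub {f g : E d → F} (hf : Sm f) (hg : Sm g) (j : Fin d) (x : E d) :
    D j (fun x => f x - g x) x = D j f x - D j g x := by
  unfold D
  rw [fderiv_fun_sub (hf.diff x) (hg.diff x)]
  rfl

theorem D_smul {a : E d → ℝ} {f : E d → F} (ha : Sm a) (hf : Sm f) (j : Fin d) (x : E d) :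
    D j (fun x => a x • f x) x = D j a x • f x + a x • D j f x := by
  unfold D
  rw [fderiv_fun_smul (ha.diff x) (hf.diff x)]
  simp [add_comm]

theorem D_sum {ι : Type*} (s : Finset ι) {f : ι → E d → F} (hf : ∀ i, Sm (f i)) (j : Fin d)
    (x : E d) : D j (fun x => ∑ i ∈ s, f i x) x = ∑ i ∈ s, D j (f i) x := by
  unfold D
  rw [fderiv_fun_sum fun i _ => (hf i).diff x]
  simp

theorem D_comm {f : E d → F} (hf : Sm f) (i j : Fin d) (x : E d) :
    D i (D j f) x = D j (D i f) x := by
  have h2 : Differentiable ℝ (fderiv ℝ f) :=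
    (ContDiff.fderiv_right hf (m := (⊤ : ℕ∞)) (by simp)).differentiable (by simp)
  have hs : IsSymmSndFDerivAt ℝ f x :=
    (ContDiff.contDiffAt hf).isSymmSndFDerivAt (by
      rw [minSmoothness_of_isRCLikeNormedField]
      exact WithTop.coe_le_coe.2 (le_top : (2 : ℕ∞) ≤ ⊤))
  have key : ∀ k l : Fin d, D k (D l f) x =
      fderiv ℝ (fderiv ℝ f) x (EuclideanSpace.single k 1) (EuclideanSpace.single l 1) := by
    intro k l
    unfold D
    have h3 : HasFDerivAt (fun y => fderiv ℝ f y (EuclideanSpace.single l 1))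
        (((fderiv ℝ (fderiv ℝ f) x).flip) (EuclideanSpace.single l 1)) x := by
      have := (h2 x).hasFDerivAt.clm_apply (hasFDerivAt_const (EuclideanSpace.single l (1:ℝ)) x)
      simpa using this
    rw [h3.fderiv]
    rfl
  rw [key, key]
  exact hs _ _

/-! ### rules for vector fields -/

variable {V W : Fin d → E d → ℝ}

theorem L_L (hW : ∀ j, Sm (W j)) {f : E d → F} (hf : Sm f) (x : E d) :
    L V (L W f) x = ∑ j, L V (W j) x • D j f x +
      ∑ i, ∑ j, (V i x * W j x) • D i (D j f) x := by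
  have h1 : ∀ i, D i (L W f) x = ∑ j, (D i (W j) x • D j f x + W j x • D i (D j f) x) := by
    intro i
    have e : D i (L W f) x = D i (fun y => ∑ j, W j y • D j f y) x := rfl
    rw [e, D_sum _ (fun j => (hW j).smul (hf.D j))]
    exact Finset.sum_congr rfl fun j _ => D_smul (hW j) (hf.D j) i x
  unfold L at h1 ⊢
  simp only [h1, Finset.smul_sum, smul_add, Finset.sum_add_distrib, Finset.sum_smul, smul_smul,
    smul_eq_mul]
  congr 1
  rw [Finset.sum_comm]

/-- the bracket is the commutator -/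
theorem L_br (hV : ∀ j, Sm (V j)) (hW : ∀ j, Sm (W j)) {f : E d → F} (hf : Sm f) (x : E d) :
    L V (L W f) x - L W (L V f) x = L (br V W) f x := by
  rw [L_L hW hf, L_L hV hf]
  have h1 : ∑ i, ∑ j, (V i x * W j x) • D i (D j f) x =
      ∑ i, ∑ j, (W i x * V j x) • D i (D j f) x := by
    rw [Finset.sum_comm]
    refine Finset.sum_congr rfl fun i _ => Finset.sum_congr rfl fun j _ => ?_
    rw [D_comm hf, mul_comm]
  rw [h1, add_sub_add_right_eq_sub, ← Finset.sum_sub_distrib]
  unfold L br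
  refine Finset.sum_congr rfl fun j _ => ?_
  rw [sub_smul]
  rfl

theorem dv_add (hV : ∀ j, Sm (V j)) (hW : ∀ j, Sm (W j)) (x : E d) :
    dv (fun j x => V j x + W j x) x = dv V x + dv W x := by
  unfold dv
  rw [← Finset.sum_add_distrib]
  exact Finset.sum_congr rfl fun j _ => D_add (hV j) (hW j) j x

theorem dv_sub (hV : ∀ j, Sm (V j)) (hW : ∀ j, Sm (W j)) (x : E d) :
    dv (fun j x => V j x - W j x) x = dv V x - dv W x := by
  unfold dv
  rw [← Finset.sum_sub_distrib]
  exact Finset.sum_congr rfl fun j _ => D_sub (hV j) (hW j) j x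

theorem dv_smul {h : E d → ℝ} (hh : Sm h) (hV : ∀ j, Sm (V j)) (x : E d) :
    dv (fun j x => h x * V j x) x = L V h x + h x * dv V x := by
  unfold dv L
  rw [Finset.mul_sum, ← Finset.sum_add_distrib]
  refine Finset.sum_congr rfl fun j _ => ?_
  have := D_smul (F := ℝ) hh (hV j) j x
  simp only [smul_eq_mul] at this ⊢
  rw [this]
  ring

/-- divergence of a bracket -/
theorem dv_br (hV : ∀ j, Sm (V j)) (hW : ∀ j, Sm (W j)) (x : E d) :
    dv (br V W) x = L V (dv W) x - L W (dv V) x := by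
  have key : ∀ {V W : Fin d → E d → ℝ}, (∀ j, Sm (V j)) → (∀ j, Sm (W j)) →
      ∑ j, D j (L V (W j)) x = ∑ j, ∑ i, D j (V i) x * D i (W j) x + L V (dv W) x := by
    intro V W hV hW
    have h1 : ∀ j, D j (L V (W j)) x =
        ∑ i, (D j (V i) x * D i (W j) x + V i x * D j (D i (W j)) x) := by
      intro j
      have e : D j (L V (W j)) x = D j (fun y => ∑ i, V i y • D i (W j) y) x := rfl
      rw [e, D_sum _ (fun i => (hV i).smul ((hW j).D i))]
      refine Finset.sum_congr rfl fun i _ => ?_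
      rw [D_smul (hV i) ((hW j).D i)]
      rfl
    simp only [h1, Finset.sum_add_distrib]
    congr 1
    unfold L
    rw [Finset.sum_comm]
    refine Finset.sum_congr rfl fun i _ => ?_
    have e : D i (dv W) x = D i (fun y => ∑ j, D j (W j) y) x := rfl
    rw [e, D_sum _ (fun j => (hW j).D j), smul_eq_mul, Finset.mul_sum]
    refine Finset.sum_congr rfl fun j _ => ?_
    rw [D_comm (hW j)]
  have h2 : dv (br V W) x = ∑ j, D j (L V (W j)) x - ∑ j, D j (L W (V j)) x := by
    unfold dv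
    rw [← Finset.sum_sub_distrib]
    exact Finset.sum_congr rfl fun j _ => D_sub (Sm.L hV (hW j)) (Sm.L hW (hV j)) j x
  rw [h2, key hV hW, key hW hV]
  have h3 : ∑ j, ∑ i, D j (V i) x * D i (W j) x = ∑ j, ∑ i, D j (W i) x * D i (V j) x := by
    rw [Finset.sum_comm]
    refine Finset.sum_congr rfl fun i _ => Finset.sum_congr rfl fun j _ => ?_
    ring
  rw [h3]
  ring

/-- the divergence free field of a pair -/
def vv (V W : Fin d → E d → ℝ) (j : Fin d) (x : E d) : ℝ :=
  br V W j x + (dv V x * W j x - dv W x * V j x)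

theorem Sm.vv (hV : ∀ j, Sm (V j)) (hW : ∀ j, Sm (W j)) (j : Fin d) : Sm (vv V W j) :=
  (Sm.br hV hW j).add (((Sm.dv hV).smul (hW j)).sub ((Sm.dv hW).smul (hV j)))

theorem dv_vv (hV : ∀ j, Sm (V j)) (hW : ∀ j, Sm (W j)) (x : E d) : dv (vv V W) x = 0 := by
  have s1 : ∀ j, Sm (fun x => dv V x * W j x) := fun j => (Sm.dv hV).smul (hW j)
  have s2 : ∀ j, Sm (fun x => dv W x * V j x) := fun j => (Sm.dv hW).smul (hV j)
  have h1 : dv (vv V W) x = dv (br V W) x +
      dv (fun j x => dv V x * W j x - dv W x * V j x) x :=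
    dv_add (Sm.br hV hW) (fun j => (s1 j).sub (s2 j)) x
  rw [h1, dv_sub s1 s2, dv_br hV hW, dv_smul (Sm.dv hV) hW, dv_smul (Sm.dv hW) hV]
  ring

theorem L_vv {f : E d → F} (x : E d) :
    L (vv V W) f x = L (br V W) f x + (dv V x • L W f x - dv W x • L V f x) := by
  unfold L vv
  rw [Finset.smul_sum, Finset.smul_sum, ← Finset.sum_sub_distrib, ← Finset.sum_add_distrib]
  refine Finset.sum_congr rfl fun j _ => ?_
  rw [add_smul, sub_smul, smul_smul, smul_smul]

/-- `div ((V ⊗ W) ∇ f)` -/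
theorem div_tensor (hV : ∀ j, Sm (V j)) (hW : ∀ j, Sm (W j)) {f : E d → F} (hf : Sm f)
    (x : E d) :
    ∑ i, D i (fun y => ∑ j, (V i y * W j y) • D j f y) x =
      dv V x • L W f x + L V (L W f) x := by
  have h1 : ∀ i, D i (fun y => ∑ j, (V i y * W j y) • D j f y) x =
      D i (V i) x • L W f x + V i x • D i (L W f) x := by
    intro i
    have e : (fun y => ∑ j, (V i y * W j y) • D j f y) = fun y => V i y • L W f y := by
      funext y
      unfold L
      rw [Finset.smul_sum]
      exact Finset.sum_congr rfl fun j _ => (smul_smul _ _ _).symm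
    rw [e, D_smul (hV i) (Sm.L hW hf)]
  simp only [h1, Finset.sum_add_distrib]
  congr 1
  unfold dv
  rw [Finset.sum_smul]

/-! ### invariance -/

theorem Inv.D {w : E d} {f : E d → F} (hf : Inv w f) (j : Fin d) : Inv w (D j f) := by
  intro x
  have e : (fun y => f (y + w)) = f := funext hf
  unfold Pool.Agent.Lib.MP_c8757e_WG.D
  rw [← fderiv_comp_add_right w, e]

theorem Inv.L {w : E d} {f : E d → F} (hV : ∀ j, Inv w (V j)) (hf : Inv w f) :
    Inv w (L V f) := by
  intro x
  unfold Pool.Agent.Lib.MP_c8757e_WG.L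
  refine Finset.sum_congr rfl fun j _ => ?_
  rw [hV j x, hf.D j x]

theorem Inv.dv {w : E d} (hV : ∀ j, Inv w (V j)) : Inv w (dv V) := by
  intro x
  unfold Pool.Agent.Lib.MP_c8757e_WG.dv
  exact Finset.sum_congr rfl fun j _ => (hV j).D j x

theorem Inv.vv {w : E d} (hV : ∀ j, Inv w (V j)) (hW : ∀ j, Inv w (W j)) (j : Fin d) :
    Inv w (vv V W j) := by
  intro x
  unfold Pool.Agent.Lib.MP_c8757e_WG.vv br
  rw [Inv.L hV (hW j) x, Inv.L hW (hV j) x, Inv.dv hV x, Inv.dv hW x, hV j x, hW j x]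

/-- a constant vector field -/
def cst (w : E d) (j : Fin d) (_ : E d) : ℝ := w j

theorem Sm.cst (w : E d) (j : Fin d) : Sm (cst w j) := contDiff_const

theorem dv_cst (w x : E d) : dv (cst w) x = 0 := by
  unfold dv cst D
  simp

theorem L_cst {f : E d → F} (w x : E d) : L (cst w) f x = fderiv ℝ f x w := by
  have hw : w = ∑ j, w j • (EuclideanSpace.single j (1 : ℝ) : E d) := by
    ext i
    simp [Finset.sum_apply, Pi.single_apply]
  unfold L cst D
  conv_rhs => rw [hw]
  rw [map_sum]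
  exact Finset.sum_congr rfl fun j _ => (map_smul _ _ _).symm

/-- if `f` is invariant along a line then the derivative in this direction vanishes -/
theorem L_cst_zero {f : E d → F} (hf : Sm f) {w : E d} (h : ∀ s : ℝ, Inv (s • w) f) (x : E d) :
    L (cst w) f x = 0 := by
  rw [L_cst]
  have h1 : HasDerivAt (fun s : ℝ => f (x + s • w)) (fderiv ℝ f (x + (0 : ℝ) • w) w) 0 := by
    have h2 : HasDerivAt (fun s : ℝ => x + s • w) w 0 := by
      simpa using ((hasDerivAt_id (0 : ℝ)).smul_const w).const_add x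
    exact (hf.diff _).hasFDerivAt.comp_hasDerivAt (0 : ℝ) h2
  have h3 : (fun s : ℝ => f (x + s • w)) = fun _ => f x := funext fun s => h s x
  rw [h3] at h1
  have h4 := h1.unique (hasDerivAt_const (0 : ℝ) (f x))
  simpa using h4

end Pool.Agent.Lib.MP_c8757e_WG
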