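import Pool.Agent.Lib.MP_c8757e_WG.Pde

/-!
# WG: periodicity, boundedness and ellipticity of the coefficients
-/

open MeasureTheory Filter Topology

noncomputable section

namespace Pool.Agent.Lib.MP_c8757e_WG

open Pool.Agent.Lib.MP_c8757e_mp

/-- the closed unit cube -/
def QQ : Set (E 4) := (WithLp.toLp 2) '' (Set.pi Set.univ fun _ : Fin 4 => Set.Icc (0 : ℝ) 1)

theorem QQ_compact : IsCompact QQ :=
  (isCompact_univ_pi fun _ => isCompact_Icc).image (PiLp.continuous_toLp 2 _)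

theorem exists_cube (x : E 4) : ∃ (y : E 4) (n : Fin 4 → ℤ), y ∈ QQ ∧ x = y + latE n ∧
    ∀ i, |(n i : ℝ)| ≤ |x i| + 1 := by
  refine ⟨WithLp.toLp 2 (fun i => Int.fract (x i)), fun i => ⌊x i⌋, ?_, ?_, ?_⟩
  · refine ⟨_, fun i _ => ⟨Int.fract_nonneg _, (Int.fract_lt_one _).le⟩, rfl⟩
  · ext i
    change x i = Int.fract (x i) + (⌊x i⌋ : ℝ)
    rw [add_comm]
    exact (Int.floor_add_fract (x i)).symm
  · intro i
    have h1 := Int.floor_le (x i)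
    have h2 := Int.lt_floor_add_one (x i)
    rw [abs_le]
    have h3 := neg_abs_le (x i)
    have h4 := le_abs_self (x i)
    constructor <;> linarith

theorem per_bdd {f : E 4 → ℝ} (hf : Sm f) (hp : ∀ n, Inv (latE n) f) :
    ∃ B, 0 ≤ B ∧ ∀ x, |f x| ≤ B := by
  obtain ⟨B, hB⟩ := QQ_compact.exists_bound_of_continuousOn hf.continuous.continuousOn
  refine ⟨|B|, abs_nonneg _, fun x => ?_⟩
  obtain ⟨y, n, hy, rfl, _⟩ := exists_cube x
  rw [hp n y]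
  exact (hB y hy).trans (le_abs_self _)

theorem bet_per (n : Fin 4 → ℤ) (k : Fin 2) : Inv (latE n) (bet k) := bet_inv_lat k n

theorem X_per (n : Fin 4 → ℤ) (j : Fin 4) : Inv (latE n) (X j) := X_inv (bet_per n) j

theorem Y_per (n : Fin 4 → ℤ) (j : Fin 4) : Inv (latE n) (Y j) := Y_inv (bet_per n) j

theorem vf_per (n : Fin 4 → ℤ) (j : Fin 4) : Inv (latE n) (vf j) :=
  Inv.vv (X_per n) (Y_per n) j

theorem exists_B : ∃ B : ℝ, 0 ≤ B ∧ ∀ j x, |X j x| ≤ B ∧ |Y j x| ≤ B ∧ |vf j x| ≤ B := by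
  have h1 : ∀ j : Fin 4, ∃ B, 0 ≤ B ∧ ∀ x, |X j x| ≤ B ∧ |Y j x| ≤ B ∧ |vf j x| ≤ B := by
    intro j
    obtain ⟨B1, p1, h1⟩ := per_bdd (X_smooth j) (fun n => X_per n j)
    obtain ⟨B2, p2, h2⟩ := per_bdd (Y_smooth j) (fun n => Y_per n j)
    obtain ⟨B3, p3, h3⟩ := per_bdd (vf_smooth j) (fun n => vf_per n j)
    refine ⟨B1 + B2 + B3, by positivity, fun x => ⟨?_, ?_, ?_⟩⟩
    · linarith [h1 x]
    · linarith [h2 x]
    · linarith [h3 x]
  choose B hB0 hB using h1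
  refine ⟨∑ j, B j, Finset.sum_nonneg fun j _ => hB0 j, fun j x => ?_⟩
  have h2 : B j ≤ ∑ j, B j := Finset.single_le_sum (fun i _ => hB0 i) (Finset.mem_univ j)
  obtain ⟨a, b, c⟩ := hB j x
  exact ⟨a.trans h2, b.trans h2, c.trans h2⟩

theorem sq_le_of_abs {a B : ℝ} (h : |a| ≤ B) : a ^ 2 ≤ B ^ 2 :=
  sq_le_sq' (by linarith [neg_abs_le a]) (by linarith [le_abs_self a])

theorem ell_ineq {B κ a0 a1 c0 c1 v0 v1 v2 v3 : ℝ} (hB : 0 ≤ B) (h0 : 0 ≤ κ) (h1 : κ ≤ 1)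
    (ha0 : |a0| ≤ B) (ha1 : |a1| ≤ B) (hc0 : |c0| ≤ B) (hc1 : |c1| ≤ B)
    (hv0 : |v0| ≤ B) (hv1 : |v1| ≤ B) (hv2 : |v2| ≤ B) (hv3 : |v3| ≤ B) (p q r s : ℝ) :
    1 / 4 * (p ^ 2 + q ^ 2 + r ^ 2 + s ^ 2) ≤
      (p + a0 * r + a1 * s) ^ 2 + (q + c0 * r + c1 * s) ^ 2 +
        κ * ((v0 * p + v1 * q + v2 * r + v3 * s) * (r + s)) +
        (8 * B ^ 2 + 2 * B + 1) * (r ^ 2 + s ^ 2) := by
  have key1 : ∀ {a c : ℝ} (x : ℝ), |a| ≤ B → |c| ≤ B →
      x ^ 2 / 2 - 2 * B ^ 2 * (r ^ 2 + s ^ 2) ≤ (x + a * r + c * s) ^ 2 := by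
    intro a c x ha hc
    have e1 : a ^ 2 * r ^ 2 ≤ B ^ 2 * r ^ 2 := mul_le_mul_of_nonneg_right (sq_le_of_abs ha)
      (sq_nonneg r)
    have e2 : c ^ 2 * s ^ 2 ≤ B ^ 2 * s ^ 2 := mul_le_mul_of_nonneg_right (sq_le_of_abs hc)
      (sq_nonneg s)
    nlinarith [sq_nonneg (x + 2 * (a * r + c * s)), sq_nonneg (a * r - c * s)]
  have key2 : ∀ {v : ℝ} (x : ℝ), |v| ≤ B →
      -(x ^ 2 / 4) - 2 * B ^ 2 * (r ^ 2 + s ^ 2) ≤ κ * (v * x * (r + s)) := by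
    intro v x hv
    have e1 : (κ * v) ^ 2 ≤ B ^ 2 := by
      refine sq_le_of_abs ?_
      rw [abs_mul, abs_of_nonneg h0]
      calc κ * |v| ≤ 1 * B := mul_le_mul h1 hv (abs_nonneg _) (by norm_num)
        _ = B := one_mul B
    have e2 : (κ * v) ^ 2 * (r + s) ^ 2 ≤ B ^ 2 * (r + s) ^ 2 :=
      mul_le_mul_of_nonneg_right e1 (sq_nonneg _)
    have e3 : B ^ 2 * (r + s) ^ 2 ≤ B ^ 2 * (2 * (r ^ 2 + s ^ 2)) :=
      mul_le_mul_of_nonneg_left (by nlinarith [sq_nonneg (r - s)]) (sq_nonneg B)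
    nlinarith [sq_nonneg (x / 2 + κ * v * (r + s))]
  have key3 : -(2 * B * (r ^ 2 + s ^ 2)) ≤ κ * ((v2 * r + v3 * s) * (r + s)) := by
    have e1 : |(v2 * r + v3 * s) * (r + s)| ≤ B * (|r| + |s|) * (|r| + |s|) := by
      rw [abs_mul]
      refine mul_le_mul ?_ (abs_add_le _ _) (abs_nonneg _) (by positivity)
      calc |v2 * r + v3 * s| ≤ |v2| * |r| + |v3| * |s| := by
            rw [← abs_mul, ← abs_mul]
            exact abs_add_le _ _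
        _ ≤ B * |r| + B * |s| := add_le_add (mul_le_mul_of_nonneg_right hv2 (abs_nonneg _))
            (mul_le_mul_of_nonneg_right hv3 (abs_nonneg _))
        _ = B * (|r| + |s|) := by ring
    have e2 : B * (|r| + |s|) * (|r| + |s|) ≤ 2 * B * (r ^ 2 + s ^ 2) := by
      have : (|r| + |s|) ^ 2 ≤ 2 * (r ^ 2 + s ^ 2) := by
        rw [← sq_abs r, ← sq_abs s]
        nlinarith [sq_nonneg (|r| - |s|)]
      nlinarith
    have e3 : |κ * ((v2 * r + v3 * s) * (r + s))| ≤ 2 * B * (r ^ 2 + s ^ 2) := by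
      rw [abs_mul, abs_of_nonneg h0]
      have : 0 ≤ |(v2 * r + v3 * s) * (r + s)| := abs_nonneg _
      calc κ * |(v2 * r + v3 * s) * (r + s)| ≤ 1 * |(v2 * r + v3 * s) * (r + s)| :=
            mul_le_mul_of_nonneg_right h1 this
        _ ≤ _ := by linarith
    linarith [neg_abs_le (κ * ((v2 * r + v3 * s) * (r + s)))]
  have k1 := key1 p ha0 ha1
  have k2 := key1 q hc0 hc1
  have k3 := key2 p hv0
  have k4 := key2 q hv1
  have e : κ * ((v0 * p + v1 * q + v2 * r + v3 * s) * (r + s)) =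
      κ * (v0 * p * (r + s)) + κ * (v1 * q * (r + s)) + κ * ((v2 * r + v3 * s) * (r + s)) := by
    ring
  rw [e]
  nlinarith [sq_nonneg r, sq_nonneg s]

theorem Jv0 : Jv 0 = 0 := by simp [Jv]
theorem Jv1 : Jv 1 = 0 := by simp [Jv]
theorem Jv2 : Jv 2 = 1 := by simp [Jv]
theorem Jv3 : Jv 3 = 1 := by simp [Jv]

theorem AA_smooth (C : ℝ) (i j : Fin 4) : ContDiff ℝ (⊤ : ℕ∞) (fun x => AA C x i j) := by
  have h1 : Sm (fun x => X i x * X j x) := (X_smooth i).smul (X_smooth j)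
  have h2 : Sm (fun x => Y i x * Y j x) := (Y_smooth i).smul (Y_smooth j)
  have h3 : Sm (fun x => vf i x * Jv j) := (vf_smooth i).smul (Sm.cstC (Jv j))
  have h4 : Sm (fun x => Jv i * vf j x) := (Sm.cstC (Jv i)).smul (vf_smooth j)
  have h5 : Sm (fun x => 1 / (4 * Real.pi) * (vf i x * Jv j + Jv i * vf j x)) :=
    (Sm.cstC (1 / (4 * Real.pi))).smul (h3.add h4)
  exact ((h1.add h2).add h5).add (Sm.cstC _)

theorem AA_symm (C : ℝ) (x : E 4) : (AA C x).IsSymm := by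
  ext i j
  simp only [Matrix.transpose_apply, AA]
  ring

theorem AA_per (C : ℝ) : Periodic (AA C) := by
  intro x n
  ext i j
  simp only [AA]
  rw [X_per n i x, X_per n j x, Y_per n i x, Y_per n j x, vf_per n i x, vf_per n j x]

theorem exists_C : ∃ C : ℝ, 0 < C ∧ EllipticWith (AA C) (1 / 4) := by
  obtain ⟨B, hB, h⟩ := exists_B
  refine ⟨8 * B ^ 2 + 2 * B + 1, by positivity, by norm_num, fun x ξ => ?_⟩
  have key := ell_ineq (B := B) (κ := 1 / (2 * Real.pi)) hB (by positivity) (by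
    rw [div_le_one (by positivity)]
    linarith [Real.pi_gt_three]) (h 2 x).1 (h 3 x).1 (h 2 x).2.1 (h 3 x).2.1
    (h 0 x).2.2 (h 1 x).2.2 (h 2 x).2.2 (h 3 x).2.2 (ξ 0) (ξ 1) (ξ 2) (ξ 3)
  have X0 : X 0 x = 1 := rfl
  have X1 : X 1 x = 0 := rfl
  have Y0 : Y 0 x = 0 := rfl
  have Y1 : Y 1 x = 1 := rfl
  have e2a : e2 0 = 0 := by simp [e2]
  have e2b : e2 1 = 0 := by simp [e2]
  have e2c : e2 2 = 1 := by simp [e2]
  have e2d : e2 3 = 0 := by simp [e2]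
  have e3a : e3 0 = 0 := by simp [e3]
  have e3b : e3 1 = 0 := by simp [e3]
  have e3c : e3 2 = 0 := by simp [e3]
  have e3d : e3 3 = 1 := by simp [e3]
  simp only [Fin.sum_univ_four, AA, X0, X1, Y0, Y1, Jv0, Jv1, Jv2, Jv3, e2a, e2b, e2c, e2d,
    e3a, e3b, e3c, e3d]
  have hpi : (1 : ℝ) / (4 * Real.pi) = 1 / (2 * Real.pi) / 2 := by
    field_simp
    norm_num
  rw [hpi]
  refine key.trans (le_of_eq ?_)
  ring

end Pool.Agent.Lib.MP_c8757e_WG
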