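import Pool.Agent.Lib.MP_c8757e_WG.Beta

/-!
# WG: the operator and its solutions
-/

open MeasureTheory Filter Topology

noncomputable section

namespace Pool.Agent.Lib.MP_c8757e_WG

open Pool.Agent.Lib.MP_c8757e_mp

section General

variable {d : ℕ} {V W : Fin d → E d → ℝ}

theorem L_cmul {f : E d → ℂ} (hf : Sm f) (c : ℂ) (x : E d) :
    L V (fun x => c * f x) x = c * L V f x := by
  unfold L
  rw [Finset.mul_sum]
  refine Finset.sum_congr rfl fun j _ => ?_
  rw [D_cmulC c hf, mul_smul_comm]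

theorem L_add {F : Type*} [NormedAddCommGroup F] [NormedSpace ℝ F] {f g : E d → F} (hf : Sm f)
    (hg : Sm g) (x : E d) : L V (fun x => f x + g x) x = L V f x + L V g x := by
  unfold L
  rw [← Finset.sum_add_distrib]
  refine Finset.sum_congr rfl fun j _ => ?_
  rw [D_add hf hg, smul_add]

/-- the flux of a tensor -/
def T (V W : Fin d → E d → ℝ) (f : E d → ℂ) (i : Fin d) (y : E d) : ℂ :=
  ∑ j, (V i y * W j y) • D j f y

theorem Sm.T (hV : ∀ j, Sm (V j)) (hW : ∀ j, Sm (W j)) {f : E d → ℂ} (hf : Sm f) (i : Fin d) :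
    Sm (T V W f i) :=
  Sm.sum _ fun j => ((hV i).smul (hW j)).smul (hf.D j)

theorem div_T (hV : ∀ j, Sm (V j)) (hW : ∀ j, Sm (W j)) {f : E d → ℂ} (hf : Sm f) (x : E d) :
    ∑ i, D i (T V W f i) x = dv V x • L W f x + L V (L W f) x :=
  div_tensor hV hW hf x

end General

/-- the drift field -/
def vf : Fin 4 → E 4 → ℝ := vv X Y

theorem vf_smooth (j : Fin 4) : Sm (vf j) := Sm.vv X_smooth Y_smooth j

def e2 : E 4 := EuclideanSpace.single 2 1

def e3 : E 4 := EuclideanSpace.single 3 1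

/-- the coefficient matrix -/
def AA (C : ℝ) (x : E 4) : Matrix (Fin 4) (Fin 4) ℝ := fun i j =>
  X i x * X j x + Y i x * Y j x + 1 / (4 * Real.pi) * (vf i x * Jv j + Jv i * vf j x) +
    C * (e2 i * e2 j + e3 i * e3 j)

theorem flux_eq (C : ℝ) (F : E 4 → ℂ) (i : Fin 4) (y : E 4) :
    ∑ j, (AA C y i j : ℂ) * D j F y = T X X F i y + T Y Y F i y +
      (((1 / (4 * Real.pi) : ℝ) : ℂ) * (T vf (cst Jv) F i y + T (cst Jv) vf F i y) +
        (C : ℂ) * (T (cst e2) (cst e2) F i y + T (cst e3) (cst e3) F i y)) := by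
  unfold T
  rw [← Finset.sum_add_distrib, ← Finset.sum_add_distrib, ← Finset.sum_add_distrib,
    Finset.mul_sum, Finset.mul_sum, ← Finset.sum_add_distrib, ← Finset.sum_add_distrib]
  refine Finset.sum_congr rfl fun j _ => ?_
  simp only [AA, cst, Complex.real_smul]
  push_cast
  ring

theorem vf_J (j : Fin 4) (x : E 4) : L (cst Jv) (vf j) x = 0 := by
  refine L_cst_zero (vf_smooth j) (fun s => ?_) x
  exact Inv.vv (X_inv fun k => bet_inv_J k s) (Y_inv fun k => bet_inv_J k s) j

/-- the main computation -/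
theorem pde {C : ℝ} {F : E 4 → ℂ} (hF : Sm F)
    (h1 : ∀ x, L X F x + Complex.I * L Y F x = 0)
    (h2 : ∀ x, L (cst Jv) F x = 2 * Real.pi * Complex.I * F x)
    (h3 : ∀ x, L (cst e2) (L (cst e2) F) x + L (cst e3) (L (cst e3) F) x =
      -(4 * Real.pi ^ 2) * F x) (x : E 4) :
    ∑ i, D i (fun y => ∑ j, (AA C y i j : ℂ) * D j F y) x =
      -((4 * Real.pi ^ 2 * C : ℝ) : ℂ) * F x := by
  have hJ : ∀ j, Sm (cst Jv j) := Sm.cst Jv
  have hX := X_smooth
  have hY := Y_smooth
  have hv := vf_smooth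
  -- the divergence of the flux
  have key : ∑ i, D i (fun y => ∑ j, (AA C y i j : ℂ) * D j F y) x =
      (dv X x • L X F x + L X (L X F) x) + (dv Y x • L Y F x + L Y (L Y F) x) +
      (((1 / (4 * Real.pi) : ℝ) : ℂ) * ((dv vf x • L (cst Jv) F x + L vf (L (cst Jv) F) x) +
        (dv (cst Jv) x • L vf F x + L (cst Jv) (L vf F) x)) +
      (C : ℂ) * ((dv (cst e2) x • L (cst e2) F x + L (cst e2) (L (cst e2) F) x) +
        (dv (cst e3) x • L (cst e3) F x + L (cst e3) (L (cst e3) F) x))) := by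
    rw [← div_T hX hX hF, ← div_T hY hY hF, ← div_T hv hJ hF, ← div_T hJ hv hF,
      ← div_T (Sm.cst e2) (Sm.cst e2) hF, ← div_T (Sm.cst e3) (Sm.cst e3) hF,
      ← Finset.sum_add_distrib, ← Finset.sum_add_distrib, ← Finset.sum_add_distrib,
      Finset.mul_sum, Finset.mul_sum, ← Finset.sum_add_distrib, ← Finset.sum_add_distrib]
    refine Finset.sum_congr rfl fun i _ => ?_
    have s1 := Sm.T hX hX hF i
    have s2 := Sm.T hY hY hF i
    have s3 := Sm.T hv hJ hF i
    have s4 := Sm.T hJ hv hF i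
    have s5 := Sm.T (Sm.cst e2) (Sm.cst e2) hF i
    have s6 := Sm.T (Sm.cst e3) (Sm.cst e3) hF i
    have e : (fun y => ∑ j, (AA C y i j : ℂ) * D j F y) = fun y => T X X F i y + T Y Y F i y +
      (((1 / (4 * Real.pi) : ℝ) : ℂ) * (T vf (cst Jv) F i y + T (cst Jv) vf F i y) +
        (C : ℂ) * (T (cst e2) (cst e2) F i y + T (cst e3) (cst e3) F i y)) :=
      funext fun y => flux_eq C F i y
    rw [e, D_add (s1.add s2) (((Sm.cstC _).mulC (s3.add s4)).add ((Sm.cstC _).mulC (s5.add s6))),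
      D_add s1 s2, D_add ((Sm.cstC _).mulC (s3.add s4)) ((Sm.cstC _).mulC (s5.add s6)),
      D_cmulC _ (s3.add s4), D_cmulC _ (s5.add s6), D_add s3 s4, D_add s5 s6]
  -- first order relations
  have hP : L X F = fun x => -Complex.I * L Y F x := by
    funext y
    linear_combination h1 y
  have hQ : L Y F = fun x => Complex.I * L X F x := by
    funext y
    have := h1 y
    linear_combination (-Complex.I) * this + (L Y F y) * Complex.I_sq
  have k1 : L X (L X F) x = -Complex.I * L X (L Y F) x := by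
    conv_lhs => rw [hP]
    exact L_cmul (Sm.L hY hF) _ x
  have k2 : L Y (L Y F) x = Complex.I * L Y (L X F) x := by
    conv_lhs => rw [hQ]
    exact L_cmul (Sm.L hX hF) _ x
  have k3 := L_br hX hY hF x
  have k4 : L vf F x = L (br X Y) F x + (dv X x • L Y F x - dv Y x • L X F x) := L_vv x
  have hJF : L (cst Jv) F = fun x => 2 * Real.pi * Complex.I * F x := funext h2
  have k5 : L vf (L (cst Jv) F) x = 2 * Real.pi * Complex.I * L vf F x := by
    rw [hJF]
    exact L_cmul hF _ x
  have k6 : L (cst Jv) (L vf F) x = L vf (L (cst Jv) F) x := by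
    have := L_br hJ hv hF x
    have h0 : L (br (cst Jv) vf) F x = 0 := by
      unfold L
      refine Finset.sum_eq_zero fun j _ => ?_
      have : br (cst Jv) vf j x = 0 := by
        unfold br
        rw [vf_J]
        have : L vf (cst Jv j) x = 0 := by
          unfold L cst D
          simp
        rw [this, sub_zero]
      rw [this, zero_smul]
    rw [h0] at this
    exact sub_eq_zero.1 this
  have k7 : dv vf x = 0 := dv_vv hX hY x
  have k8 := h3 x
  have hpi : (Real.pi : ℂ) ≠ 0 := Complex.ofReal_ne_zero.2 Real.pi_ne_zero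
  rw [key, k1, k2, k6, k5, k7, dv_cst, dv_cst, dv_cst, k4]
  simp only [zero_smul, zero_add, Complex.real_smul]
  have e9 : L (cst e2) (L (cst e2) F) x + L (cst e3) (L (cst e3) F) x =
      -(4 * (Real.pi : ℂ) ^ 2) * F x := k8
  rw [e9, ← k3]
  have p1 : L X F x = -Complex.I * L Y F x := congrFun hP x
  rw [p1]
  push_cast
  field_simp
  have hI := Complex.I_sq
  ring_nf
  simp only [hI]
  ring

end Pool.Agent.Lib.MP_c8757e_WG
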