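import Pool.Agent.Lib.MP_c8757e_WG.Calc

/-!
# WG: two quasi-periodic sections without common zeros
-/

open MeasureTheory Filter Topology Real

noncomputable section

namespace Pool.Agent.Lib.MP_c8757e_WG

open Pool.Agent.Lib.MP_c8757e_mp

/-- periodic cut-off -/
def sig (y : ℝ) : ℝ := Real.smoothTransition (1 + 2 * Real.cos (2 * π * y))

theorem sig_zero {y : ℝ} (h : Real.cos (2 * π * y) ≤ -(1 / 2)) : sig y = 0 :=
  Real.smoothTransition.zero_of_nonpos (by linarith)

theorem sig_one {y : ℝ} (h : 0 ≤ Real.cos (2 * π * y)) : sig y = 1 :=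
  Real.smoothTransition.one_of_one_le (by linarith)

theorem sig_add (y : ℝ) (n : ℤ) : sig (y + n) = sig y := by
  unfold sig
  have : 2 * π * (y + n) = 2 * π * y + n * (2 * π) := by ring
  rw [this, Real.cos_add_int_mul_two_pi]

theorem sig_smooth : ContDiff ℝ (⊤ : ℕ∞) sig := by
  unfold sig
  exact Real.smoothTransition.contDiff.comp
    (contDiff_const.add (contDiff_const.mul (Real.contDiff_cos.comp
      (contDiff_const.mul contDiff_id))))

/-- the basic section -/
def Bsec (x y : ℝ) : ℂ := (sig y : ℂ) * Complex.exp (2 * π * Complex.I * (round y : ℂ) * x)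

theorem Bsec_add (x y : ℝ) (m n : ℤ) :
    Bsec (x + m) (y + n) = Complex.exp (2 * π * Complex.I * n * x) * Bsec x y := by
  unfold Bsec
  rw [sig_add, round_add_intCast]
  have h1 : Complex.exp (2 * π * Complex.I * ((round y + n : ℤ) : ℂ) * ((x + m : ℝ) : ℂ)) =
      Complex.exp (2 * π * Complex.I * n * x) *
        Complex.exp (2 * π * Complex.I * (round y : ℂ) * x) := by
    have e : (2 * π * Complex.I * ((round y + n : ℤ) : ℂ) * ((x + m : ℝ) : ℂ)) =
        (2 * π * Complex.I * n * x + 2 * π * Complex.I * (round y : ℂ) * x) +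
          ((round y + n) * m : ℤ) * (2 * π * Complex.I) := by
      push_cast
      ring
    rw [e, Complex.exp_add, Complex.exp_int_mul_two_pi_mul_I, mul_one, Complex.exp_add]
  rw [h1]
  ring

theorem round_near {y n : ℝ} {k : ℤ} (hn : n = k) (h : |y - n| < 1 / 2) : round y = k := by
  rw [round_eq, Int.floor_eq_iff]
  rw [abs_lt] at h
  constructor <;> linarith

theorem Bsec_smooth : ContDiff ℝ (⊤ : ℕ∞) (fun p : ℝ × ℝ => Bsec p.1 p.2) := by
  rw [contDiff_iff_contDiffAt]
  intro p
  have hc : Continuous (fun q : ℝ × ℝ => Real.cos (2 * π * q.2)) := by fun_prop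
  by_cases h : Real.cos (2 * π * p.2) < -(1 / 2)
  · have hev : ∀ᶠ q in 𝓝 p, (fun p : ℝ × ℝ => Bsec p.1 p.2) q = (fun _ => (0 : ℂ)) q := by
      filter_upwards [(hc.tendsto p).eventually (gt_mem_nhds h)] with q hq
      simp only [Bsec]
      rw [sig_zero (le_of_lt hq)]
      simp
    exact (contDiffAt_const (c := (0 : ℂ))).congr_of_eventuallyEq hev
  · have h2 : |p.2 - round p.2| ≠ 1 / 2 := by
      intro h3
      apply h
      have h4 : 2 * π * p.2 = 2 * π * (p.2 - round p.2) + (round p.2) * (2 * π) := by ring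
      rw [h4, Real.cos_add_int_mul_two_pi, ← Real.cos_abs, abs_mul, h3,
        abs_of_pos (by positivity)]
      have : 2 * π * (1 / 2) = π := by ring
      rw [this, Real.cos_pi]
      norm_num
    have h3 : |p.2 - round p.2| < 1 / 2 := lt_of_le_of_ne (abs_sub_round p.2) h2
    have hc2 : Continuous (fun q : ℝ × ℝ => |q.2 - (round p.2 : ℝ)|) := by fun_prop
    have hev : ∀ᶠ q in 𝓝 p, (fun p : ℝ × ℝ => Bsec p.1 p.2) q =
        (fun q : ℝ × ℝ => (sig q.2 : ℂ) *
          Complex.exp (2 * π * Complex.I * (round p.2 : ℂ) * q.1)) q := by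
      filter_upwards [(hc2.tendsto p).eventually (gt_mem_nhds h3)] with q hq
      simp only [Bsec]
      rw [round_near rfl hq]
    refine ContDiffAt.congr_of_eventuallyEq ?_ hev
    refine ContDiff.contDiffAt ?_
    refine (Complex.ofRealCLM.contDiff.comp (sig_smooth.comp contDiff_snd)).mul ?_
    refine Complex.contDiff_exp.comp ?_
    exact contDiff_const.mul (Complex.ofRealCLM.contDiff.comp contDiff_fst)

/-- the two coordinates on the fibre torus -/
def tk (l : Fin 2) : Fin 4 := if l = 0 then 2 else 3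

/-- shift of the second section -/
def sh (k : Fin 2) : ℝ := if k = 0 then 0 else 1 / 2

/-- the sections -/
def U (k : Fin 2) (x : E 4) : ℂ :=
  Bsec (x 0) (x 1 - sh k) * Complex.exp (2 * π * Complex.I * (x (tk k) : ℂ))

theorem Sm_coord (j : Fin 4) : ContDiff ℝ (⊤ : ℕ∞) (fun x : E 4 => x j) :=
  (EuclideanSpace.proj (𝕜 := ℝ) j : E 4 →L[ℝ] ℝ).contDiff

theorem U_smooth (k : Fin 2) : Sm (U k) := by
  unfold Sm U
  have h1 : ContDiff ℝ (⊤ : ℕ∞) (fun x : E 4 => ((x 0, x 1 - sh k) : ℝ × ℝ)) :=
    (Sm_coord 0).prodMk ((Sm_coord 1).sub contDiff_const)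
  refine (Bsec_smooth.comp h1).mul ?_
  refine Complex.contDiff_exp.comp ?_
  exact contDiff_const.mul (Complex.ofRealCLM.contDiff.comp (Sm_coord (tk k)))

theorem U_lat (k : Fin 2) (x : E 4) (n : Fin 4 → ℤ) :
    U k (x + latE n) = Complex.exp (2 * π * Complex.I * (n 1 : ℂ) * (x 0 : ℂ)) * U k x := by
  have e : ∀ j, (x + latE n) j = x j + (n j : ℝ) := fun j => rfl
  unfold U
  rw [e, e, e]
  have e1 : x 1 + (n 1 : ℝ) - sh k = (x 1 - sh k) + (n 1 : ℝ) := by ring
  rw [e1, Bsec_add]
  have e2 : Complex.exp (2 * π * Complex.I * ((x (tk k) + (n (tk k) : ℝ) : ℝ) : ℂ)) =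
      Complex.exp (2 * π * Complex.I * (x (tk k) : ℂ)) := by
    have : (2 * π * Complex.I * ((x (tk k) + (n (tk k) : ℝ) : ℝ) : ℂ)) =
        2 * π * Complex.I * (x (tk k) : ℂ) + (n (tk k) : ℤ) * (2 * π * Complex.I) := by
      push_cast
      ring
    rw [this, Complex.exp_add, Complex.exp_int_mul_two_pi_mul_I, mul_one]
  rw [e2]
  ring

theorem U_fib (k l : Fin 2) (x : E 4) (s : ℝ) :
    U k (x + s • (EuclideanSpace.single (tk l) (1 : ℝ) : E 4)) =
      Complex.exp ((if l = k then 2 * π * Complex.I else 0) * s) * U k x := by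
  have e : ∀ j, (x + s • (EuclideanSpace.single (tk l) (1 : ℝ) : E 4)) j =
      x j + s * (if j = tk l then 1 else 0) := by
    intro j
    simp
  have h0 : (0 : Fin 4) ≠ tk l := by
    fin_cases l <;> decide
  have h1 : (1 : Fin 4) ≠ tk l := by
    fin_cases l <;> decide
  have h2 : tk k = tk l ↔ l = k := by
    fin_cases l <;> fin_cases k <;> decide
  unfold U
  rw [e, e, e]
  simp only [h0, h1, if_false, mul_zero, add_zero, h2]
  by_cases hlk : l = k
  · simp only [hlk, if_true, mul_one]
    have : (2 * π * Complex.I * ((x (tk k) + s : ℝ) : ℂ)) =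
        2 * π * Complex.I * s + 2 * π * Complex.I * (x (tk k) : ℂ) := by
      push_cast
      ring
    rw [this, Complex.exp_add]
    ring
  · simp [hlk]

theorem U_pos (x : E 4) : 0 < Complex.normSq (U 0 x) + Complex.normSq (U 1 x) := by
  have hne : ∀ k : Fin 2, sig (x 1 - sh k) = 1 → 0 < Complex.normSq (U k x) := by
    intro k hk
    rw [Complex.normSq_pos]
    unfold U Bsec
    rw [hk]
    simp [Complex.exp_ne_zero]
  have hnn : ∀ k : Fin 2, 0 ≤ Complex.normSq (U k x) := fun k => Complex.normSq_nonneg _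
  by_cases h : 0 ≤ Real.cos (2 * π * x 1)
  · have := hne 0 (by
      have : x 1 - sh 0 = x 1 := by simp [sh]
      rw [this]
      exact sig_one h)
    linarith [hnn 1]
  · have := hne 1 (by
      have e : 2 * π * (x 1 - sh 1) = 2 * π * x 1 - π := by
        simp only [sh, one_ne_zero, if_false]
        ring
      refine sig_one ?_
      rw [e, Real.cos_sub_pi]
      linarith)
    linarith [hnn 0]

end Pool.Agent.Lib.MP_c8757e_WG
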