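import Pool.Agent.Lib.MP_c8757e_WG.Ell

/-!
# WG: the family of solutions `f (x₀ + i x₁) S (x)`, `f` entire
-/

open MeasureTheory Filter Topology

noncomputable section

namespace Pool.Agent.Lib.MP_c8757e_WG

open Pool.Agent.Lib.MP_c8757e_mp

/-- the complex coordinate -/
def zz (x : E 4) : ℂ := (x 0 : ℂ) + Complex.I * (x 1 : ℂ)

/-- the Gaussian weight -/
def ee (x : E 4) : ℂ := Complex.exp (-((Real.pi : ℂ) * (x 1 : ℂ) ^ 2))

/-- the section -/
def S (x : E 4) : ℂ := ee x * (U 0 x + U 1 x)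

theorem zz_smooth : Sm zz :=
  (Complex.ofRealCLM.contDiff.comp (Sm_coord 0)).add
    ((Sm.cstC Complex.I).mulC (Complex.ofRealCLM.contDiff.comp (Sm_coord 1)))

theorem ee_smooth : Sm ee := by
  unfold ee
  have h : Sm (fun x : E 4 => ((x 1 : ℝ) : ℂ)) := Complex.ofRealCLM.contDiff.comp (Sm_coord 1)
  refine Complex.contDiff_exp.comp ?_
  exact ContDiff.neg ((Sm.cstC (Real.pi : ℂ)).mulC (ContDiff.pow h 2))

theorem S_smooth : Sm S := ee_smooth.mulC ((U_smooth 0).add (U_smooth 1))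

theorem D_coord (i j : Fin 4) (x : E 4) :
    D j (fun x : E 4 => ((x i : ℝ) : ℂ)) x = if i = j then 1 else 0 := by
  have h1 : HasFDerivAt (fun x : E 4 => ((x i : ℝ) : ℂ))
      (Complex.ofRealCLM.comp (EuclideanSpace.proj (𝕜 := ℝ) i : E 4 →L[ℝ] ℝ)) x :=
    (Complex.ofRealCLM.hasFDerivAt).comp x
      (EuclideanSpace.proj (𝕜 := ℝ) i : E 4 →L[ℝ] ℝ).hasFDerivAt
  unfold D
  rw [h1.fderiv]
  by_cases hij : i = j
  · simp [hij]
  · simp [hij]

theorem D_zz (j : Fin 4) (x : E 4) :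
    D j zz x = (if 0 = j then 1 else 0) + Complex.I * (if 1 = j then 1 else 0) := by
  have h0 : Sm (fun x : E 4 => ((x 0 : ℝ) : ℂ)) := Complex.ofRealCLM.contDiff.comp (Sm_coord 0)
  have h1 : Sm (fun x : E 4 => ((x 1 : ℝ) : ℂ)) := Complex.ofRealCLM.contDiff.comp (Sm_coord 1)
  have e : D j zz x = D j (fun x : E 4 => ((x 0 : ℝ) : ℂ) + Complex.I * ((x 1 : ℝ) : ℂ)) x := rfl
  rw [e, D_add h0 ((Sm.cstC _).mulC h1), D_cmulC _ h1, D_coord, D_coord]

/-- chain rule for a holomorphic function -/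
theorem D_hol {f : ℂ → ℂ} {h : E 4 → ℂ} (hf : Differentiable ℂ f) (hh : Sm h) (j : Fin 4)
    (x : E 4) : D j (fun x => f (h x)) x = deriv f (h x) * D j h x := by
  unfold D
  have h1 : HasDerivAt f (deriv f (h x)) (h x) := (hf (h x)).hasDerivAt
  have h2 := h1.comp_hasFDerivAt x (hh.diff x).hasFDerivAt
  have h3 : HasFDerivAt (fun x => f (h x)) (deriv f (h x) • fderiv ℝ h x) x := h2
  rw [h3.fderiv]
  rfl

theorem Sm.hol {f : ℂ → ℂ} {h : E 4 → ℂ} (hf : Differentiable ℂ f) (hh : Sm h) :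
    Sm (fun x => f (h x)) := by
  have h1 : ContDiff ℂ (⊤ : ℕ∞) f := hf.contDiff
  exact (h1.restrict_scalars ℝ).comp hh

theorem D_ee (j : Fin 4) (x : E 4) :
    D j ee x = (if 1 = j then -(2 * Real.pi * (x 1 : ℂ)) else 0) * ee x := by
  have h1 : Sm (fun x : E 4 => ((x 1 : ℝ) : ℂ)) := Complex.ofRealCLM.contDiff.comp (Sm_coord 1)
  have hf : Differentiable ℂ (fun z : ℂ => Complex.exp (-((Real.pi : ℂ) * z ^ 2))) := by
    fun_prop
  have e := D_hol hf h1 j x
  have e0 : D j ee x = D j (fun x : E 4 => (fun z : ℂ => Complex.exp (-((Real.pi : ℂ) * z ^ 2)))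
      ((x 1 : ℝ) : ℂ)) x := rfl
  rw [e0, e, D_coord]
  have hd : HasDerivAt (fun z : ℂ => Complex.exp (-((Real.pi : ℂ) * z ^ 2)))
      (Complex.exp (-((Real.pi : ℂ) * ((x 1 : ℝ) : ℂ) ^ 2)) *
        (-((Real.pi : ℂ) * (2 * ((x 1 : ℝ) : ℂ))))) ((x 1 : ℝ) : ℂ) := by
    have h2 : HasDerivAt (fun z : ℂ => -((Real.pi : ℂ) * z ^ 2))
        (-((Real.pi : ℂ) * (2 * ((x 1 : ℝ) : ℂ)))) ((x 1 : ℝ) : ℂ) := by
      have := ((hasDerivAt_pow 2 (((x 1 : ℝ) : ℂ))).const_mul (Real.pi : ℂ)).fun_neg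
      simpa using this
    exact h2.cexp
  rw [hd.deriv]
  unfold ee
  by_cases hj : (1 : Fin 4) = j
  · simp only [hj, if_true, mul_one]
    ring
  · simp [hj]

/-- the scalar factor -/
def gg (f : ℂ → ℂ) (x : E 4) : ℂ := f (zz x) * ee x

theorem gg_smooth {f : ℂ → ℂ} (hf : Differentiable ℂ f) : Sm (gg f) :=
  (Sm.hol hf zz_smooth).mulC ee_smooth

theorem D_gg {f : ℂ → ℂ} (hf : Differentiable ℂ f) (j : Fin 4) (x : E 4) :
    D j (gg f) x = deriv f (zz x) * ((if 0 = j then 1 else 0) +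
      Complex.I * (if 1 = j then 1 else 0)) * ee x +
      (if 1 = j then -(2 * Real.pi * (x 1 : ℂ)) else 0) * gg f x := by
  have e : D j (gg f) x = D j (fun x => f (zz x) * ee x) x := rfl
  rw [e, D_mulC (Sm.hol hf zz_smooth) ee_smooth, D_hol hf zz_smooth, D_zz, D_ee]
  unfold gg
  ring

/-- the two components of a solution -/
def HH (f : ℂ → ℂ) (k : Fin 2) (x : E 4) : ℂ := gg f x * U k x

theorem HH_smooth {f : ℂ → ℂ} (hf : Differentiable ℂ f) (k : Fin 2) : Sm (HH f k) :=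
  (gg_smooth hf).mulC (U_smooth k)

theorem sol_eq (f : ℂ → ℂ) : (fun x => f (zz x) * S x) = fun x => HH f 0 x + HH f 1 x := by
  funext x
  unfold S HH gg
  ring

theorem gg_fib (f : ℂ → ℂ) (l : Fin 2) (x : E 4) (s : ℝ) :
    gg f (x + s • (EuclideanSpace.single (tk l) (1 : ℝ) : E 4)) = gg f x := by
  have h0 : (x + s • (EuclideanSpace.single (tk l) (1 : ℝ) : E 4)) 0 = x 0 := by
    fin_cases l <;> simp [tk]
  have h1 : (x + s • (EuclideanSpace.single (tk l) (1 : ℝ) : E 4)) 1 = x 1 := by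
    fin_cases l <;> simp [tk]
  unfold gg zz ee
  rw [h0, h1]

theorem HH_fib (f : ℂ → ℂ) (k l : Fin 2) (x : E 4) (s : ℝ) :
    HH f k (x + s • (EuclideanSpace.single (tk l) (1 : ℝ) : E 4)) =
      Complex.exp ((if l = k then 2 * Real.pi * Complex.I else 0) * s) * HH f k x := by
  unfold HH
  rw [gg_fib, U_fib]
  ring

theorem D_HH {f : ℂ → ℂ} (hf : Differentiable ℂ f) (k l : Fin 2) (x : E 4) :
    D (tk l) (HH f k) x = (if l = k then 2 * Real.pi * Complex.I else 0) * HH f k x :=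
  fderiv_line (HH_smooth hf k) (fun x s => HH_fib f k l x s) x

theorem sol_smooth {f : ℂ → ℂ} (hf : Differentiable ℂ f) : Sm (fun x => f (zz x) * S x) :=
  (Sm.hol hf zz_smooth).mulC S_smooth

theorem sol_D {f : ℂ → ℂ} (hf : Differentiable ℂ f) (l : Fin 2) (x : E 4) :
    D (tk l) (fun x => f (zz x) * S x) x = 2 * Real.pi * Complex.I * HH f l x := by
  rw [sol_eq, D_add (HH_smooth hf 0) (HH_smooth hf 1), D_HH hf, D_HH hf]
  fin_cases l <;> simp

/-- the first order equation -/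
theorem sol_first {f : ℂ → ℂ} (hf : Differentiable ℂ f) (x : E 4) :
    L X (fun x => f (zz x) * S x) x + Complex.I * L Y (fun x => f (zz x) * S x) x = 0 := by
  have hD2 := sol_D hf 0 x
  have hD3 := sol_D hf 1 x
  have t2 : tk 0 = 2 := rfl
  have t3 : tk 1 = 3 := rfl
  rw [t2] at hD2
  rw [t3] at hD3
  have hD : ∀ j, D j (fun x => f (zz x) * S x) x =
      D j (gg f) x * (U 0 x + U 1 x) + gg f x * (D j (U 0) x + D j (U 1) x) := by
    intro j
    rw [sol_eq, D_add (HH_smooth hf 0) (HH_smooth hf 1)]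
    have e : ∀ k, D j (HH f k) x = D j (gg f) x * U k x + gg f x * D j (U k) x := fun k =>
      D_mulC (gg_smooth hf) (U_smooth k) j x
    rw [e, e]
    ring
  have X0 : X 0 x = 1 := rfl
  have X1 : X 1 x = 0 := rfl
  have X2 : X 2 x = 2 * (bet 0 x).re := rfl
  have X3 : X 3 x = 2 * (bet 1 x).re := rfl
  have Y0 : Y 0 x = 0 := rfl
  have Y1 : Y 1 x = 1 := rfl
  have Y2 : Y 2 x = 2 * (bet 0 x).im := rfl
  have Y3 : Y 3 x = 2 * (bet 1 x).im := rfl
  have hb : ∀ k, (bet k x : ℂ) = ((bet k x).re : ℂ) + ((bet k x).im : ℂ) * Complex.I := fun k =>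
    (Complex.re_add_im _).symm
  have hR : ∀ k, D 0 (U k) x + Complex.I * D 1 (U k) x =
      2 * R k x + 2 * Complex.I * Real.pi * (x 1 : ℂ) * U k x := by
    intro k
    unfold R
    ring
  have hg : D 0 (gg f) x + Complex.I * D 1 (gg f) x =
      -(2 * Real.pi * Complex.I * (x 1 : ℂ)) * gg f x := by
    rw [D_gg hf, D_gg hf]
    simp only [if_true, one_ne_zero, zero_ne_one, if_false]
    linear_combination (deriv f (zz x) * ee x) * Complex.I_sq
  have hbU : bet 0 x * U 0 x + bet 1 x * U 1 x =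
      Complex.I / (2 * Real.pi) * (R 0 x + R 1 x) := by
    have hN : ((NN x : ℝ) : ℂ) ≠ 0 := Complex.ofReal_ne_zero.2 (NN_pos x).ne'
    have hm : ∀ k, starRingEnd ℂ (U k x) * U k x = (Complex.normSq (U k x) : ℂ) := by
      intro k
      rw [mul_comm, Complex.mul_conj]
    have hNN : (NN x : ℂ) = (Complex.normSq (U 0 x) : ℂ) + (Complex.normSq (U 1 x) : ℂ) := by
      unfold NN
      push_cast
      rfl
    unfold bet
    calc _ = Complex.I / (2 * Real.pi) * (R 0 x + R 1 x) * ((NN x)⁻¹ : ℝ) *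
          (starRingEnd ℂ (U 0 x) * U 0 x + starRingEnd ℂ (U 1 x) * U 1 x) := by ring
      _ = Complex.I / (2 * Real.pi) * (R 0 x + R 1 x) * ((NN x)⁻¹ : ℝ) * (NN x : ℂ) := by
          rw [hm, hm, hNN]
      _ = _ := by
          push_cast
          field_simp
  have hpi : (Real.pi : ℂ) ≠ 0 := Complex.ofReal_ne_zero.2 Real.pi_ne_zero
  unfold L
  rw [Fin.sum_univ_four, Fin.sum_univ_four, X0, X1, X2, X3, Y0, Y1, Y2, Y3, hD2, hD3, hD 0, hD 1]
  simp only [one_smul, zero_smul, add_zero, zero_add, Complex.real_smul]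
  push_cast
  have e1 : (2 * ((bet 0 x).re : ℂ)) * (2 * Real.pi * Complex.I * HH f 0 x) +
      Complex.I * ((2 * ((bet 0 x).im : ℂ)) * (2 * Real.pi * Complex.I * HH f 0 x)) =
      4 * Real.pi * Complex.I * gg f x * (bet 0 x * U 0 x) := by
    rw [hb 0]
    simp only [HH, Complex.add_re, Complex.add_im, Complex.ofReal_re, Complex.ofReal_im,
      Complex.mul_re, Complex.mul_im, Complex.I_re, Complex.I_im, mul_zero, mul_one, zero_add,
      add_zero, sub_zero]
    ring
  have e2' : (2 * ((bet 1 x).re : ℂ)) * (2 * Real.pi * Complex.I * HH f 1 x) +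
      Complex.I * ((2 * ((bet 1 x).im : ℂ)) * (2 * Real.pi * Complex.I * HH f 1 x)) =
      4 * Real.pi * Complex.I * gg f x * (bet 1 x * U 1 x) := by
    rw [hb 1]
    simp only [HH, Complex.add_re, Complex.add_im, Complex.ofReal_re, Complex.ofReal_im,
      Complex.mul_re, Complex.mul_im, Complex.I_re, Complex.I_im, mul_zero, mul_one, zero_add,
      add_zero, sub_zero]
    ring
  have e3' : 4 * Real.pi * Complex.I * gg f x * (bet 0 x * U 0 x) +
      4 * Real.pi * Complex.I * gg f x * (bet 1 x * U 1 x) =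
      -(2 * gg f x * (R 0 x + R 1 x)) := by
    have : 4 * Real.pi * Complex.I * gg f x * (bet 0 x * U 0 x) +
      4 * Real.pi * Complex.I * gg f x * (bet 1 x * U 1 x) =
      4 * Real.pi * Complex.I * gg f x * (bet 0 x * U 0 x + bet 1 x * U 1 x) := by ring
    rw [this, hbU]
    field_simp
    linear_combination (4 * gg f x * (R 0 x + R 1 x)) * Complex.I_sq
  linear_combination e1 + e2' + e3' + (U 0 x + U 1 x) * hg + gg f x * (hR 0) + gg f x * (hR 1)

/-- every `f (z) S` is a solution -/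
theorem sol_pde {f : ℂ → ℂ} (hf : Differentiable ℂ f) (C : ℝ) (x : E 4) :
    ∑ i, D i (fun y => ∑ j, (AA C y i j : ℂ) * D j (fun x => f (zz x) * S x) y) x =
      -((4 * Real.pi ^ 2 * C : ℝ) : ℂ) * (f (zz x) * S x) := by
  refine pde (sol_smooth hf) (sol_first hf) ?_ ?_ x
  · intro y
    have hJ : Jv = EuclideanSpace.single (tk 0) 1 + EuclideanSpace.single (tk 1) 1 := rfl
    rw [L_cst, hJ, map_add]
    have h0 := sol_D hf 0 y
    have h1 := sol_D hf 1 y
    unfold D at h0 h1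
    rw [h0, h1]
    have := congrFun (sol_eq f) y
    rw [this]
    ring
  · intro y
    have h2 : L (cst e2) (fun x => f (zz x) * S x) =
        fun x => 2 * Real.pi * Complex.I * HH f 0 x := by
      funext z
      rw [L_cst]
      exact sol_D hf 0 z
    have h3 : L (cst e3) (fun x => f (zz x) * S x) =
        fun x => 2 * Real.pi * Complex.I * HH f 1 x := by
      funext z
      rw [L_cst]
      exact sol_D hf 1 z
    rw [h2, h3, L_cmul (HH_smooth hf 0), L_cmul (HH_smooth hf 1), L_cst, L_cst]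
    have h4 : fderiv ℝ (HH f 0) y e2 = 2 * Real.pi * Complex.I * HH f 0 y := by
      have := D_HH hf 0 0 y
      simp only [if_true] at this
      exact this
    have h5 : fderiv ℝ (HH f 1) y e3 = 2 * Real.pi * Complex.I * HH f 1 y := by
      have := D_HH hf 1 1 y
      simp only [if_true] at this
      exact this
    rw [h4, h5]
    have := congrFun (sol_eq f) y
    rw [this]
    linear_combination (4 * (Real.pi : ℂ) ^ 2 * (HH f 0 y + HH f 1 y)) * Complex.I_sq

end Pool.Agent.Lib.MP_c8757e_WG
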