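import Pool.Agent.Lib.MP_c8757e_WG.Sol
import Mathlib.NumberTheory.ModularForms.JacobiTheta.TwoVariable

/-!
# WG: Floquet solutions and a solution with Gaussian decay
-/

open MeasureTheory Filter Topology

noncomputable section

namespace Pool.Agent.Lib.MP_c8757e_WG

open Pool.Agent.Lib.MP_c8757e_mp

/-! ### Floquet solutions -/

theorem zz_lat (x : E 4) (n : Fin 4 → ℤ) :
    zz (x + latE n) = zz x + (n 0 : ℂ) + Complex.I * (n 1 : ℂ) := by
  have e : ∀ j, (x + latE n) j = x j + (n j : ℝ) := fun j => rfl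
  unfold zz
  rw [e, e]
  push_cast
  ring

theorem S_lat (x : E 4) (n : Fin 4 → ℤ) :
    S (x + latE n) = Complex.exp (2 * Real.pi * Complex.I * (n 1 : ℂ) * zz x -
      Real.pi * (n 1 : ℂ) ^ 2) * S x := by
  have e : (x + latE n) 1 = x 1 + (n 1 : ℝ) := rfl
  unfold S ee
  rw [U_lat, U_lat, e]
  have h : Complex.exp (-((Real.pi : ℂ) * ((x 1 + (n 1 : ℝ) : ℝ) : ℂ) ^ 2)) *
      Complex.exp (2 * Real.pi * Complex.I * (n 1 : ℂ) * (x 0 : ℂ)) =
      Complex.exp (2 * Real.pi * Complex.I * (n 1 : ℂ) * zz x - Real.pi * (n 1 : ℂ) ^ 2) *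
        Complex.exp (-((Real.pi : ℂ) * (x 1 : ℂ) ^ 2)) := by
    rw [← Complex.exp_add, ← Complex.exp_add]
    congr 1
    unfold zz
    push_cast
    linear_combination (-(2 * Real.pi * (n 1 : ℂ) * (x 1 : ℂ))) * Complex.I_sq
  linear_combination (U 0 x + U 1 x) * h

/-- the theta function of the square lattice -/
def th (z : ℂ) : ℂ := jacobiTheta₂ z Complex.I

theorem th_diff : Differentiable ℂ th := fun z =>
  differentiableAt_jacobiTheta₂_fst z (by simp)

theorem th_lat (z : ℂ) (m n : ℤ) :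
    th (z + m + Complex.I * n) =
      Complex.exp (Real.pi * (n : ℂ) ^ 2 - 2 * Real.pi * Complex.I * n * z) * th z := by
  unfold th jacobiTheta₂
  rw [← tsum_mul_left, ← (Equiv.addRight n).tsum_eq (fun j : ℤ => Complex.exp
    (Real.pi * (n : ℂ) ^ 2 - 2 * Real.pi * Complex.I * n * z) *
      jacobiTheta₂_term j z Complex.I)]
  refine tsum_congr fun j => ?_
  unfold jacobiTheta₂_term
  rw [← Complex.exp_add, Equiv.coe_addRight]
  have h1 : (2 * (Real.pi : ℂ) * Complex.I * (j : ℂ) * (z + m + Complex.I * n) +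
      Real.pi * Complex.I * (j : ℂ) ^ 2 * Complex.I) =
      (Real.pi * (n : ℂ) ^ 2 - 2 * Real.pi * Complex.I * n * z +
        (2 * Real.pi * Complex.I * ((j + n : ℤ) : ℂ) * z +
          Real.pi * Complex.I * ((j + n : ℤ) : ℂ) ^ 2 * Complex.I)) +
      ((j * m : ℤ) : ℂ) * (2 * Real.pi * Complex.I) := by
    push_cast
    linear_combination (-(Real.pi : ℂ) * (n : ℂ) ^ 2) * Complex.I_sq
  rw [h1, Complex.exp_add _ (((j * m : ℤ) : ℂ) * (2 * Real.pi * Complex.I)),
    Complex.exp_int_mul_two_pi_mul_I, mul_one]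

theorem th_zero : th 0 ≠ 0 := by
  have hs : Summable (fun n : ℤ => jacobiTheta₂_term n 0 Complex.I) :=
    (summable_jacobiTheta₂_term_iff 0 Complex.I).2 (by simp)
  have ht : ∀ n : ℤ, jacobiTheta₂_term n 0 Complex.I =
      ((Real.exp (-(Real.pi * (n : ℝ) ^ 2)) : ℝ) : ℂ) := by
    intro n
    unfold jacobiTheta₂_term
    rw [Complex.ofReal_exp]
    congr 1
    push_cast
    linear_combination (Real.pi * (n : ℂ) ^ 2) * Complex.I_sq
  have hs2 : Summable (fun n : ℤ => Real.exp (-(Real.pi * (n : ℝ) ^ 2))) := by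
    have := hs
    simp only [ht] at this
    exact Complex.summable_ofReal.1 this
  have h1 : th 0 = ((∑' n : ℤ, Real.exp (-(Real.pi * (n : ℝ) ^ 2)) : ℝ) : ℂ) := by
    unfold th jacobiTheta₂
    rw [Complex.ofReal_tsum]
    exact tsum_congr ht
  have h2 : 0 < ∑' n : ℤ, Real.exp (-(Real.pi * (n : ℝ) ^ 2)) :=
    hs2.tsum_pos (fun n => (Real.exp_pos _).le) 0 (Real.exp_pos _)
  rw [h1]
  exact Complex.ofReal_ne_zero.2 h2.ne'

/-- the entire function of the quasimomentum `k` -/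
def fk (k : Fin 2 → ℂ) (z : ℂ) : ℂ :=
  Complex.exp (2 * Real.pi * Complex.I * k 0 * z) * th (z - (k 1 - Complex.I * k 0))

theorem fk_diff (k : Fin 2 → ℂ) : Differentiable ℂ (fk k) := by
  unfold fk
  refine Differentiable.mul ?_ (th_diff.comp (differentiable_id.sub_const _))
  fun_prop

theorem fk_floquet (k : Fin 2 → ℂ) (x : E 4) (n : Fin 4 → ℤ) :
    fk k (zz (x + latE n)) * S (x + latE n) =
      Complex.exp (2 * Real.pi * Complex.I * (k 0 * (n 0 : ℂ) + k 1 * (n 1 : ℂ))) *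
        (fk k (zz x) * S x) := by
  rw [zz_lat, S_lat]
  unfold fk
  have e : zz x + (n 0 : ℂ) + Complex.I * (n 1 : ℂ) - (k 1 - Complex.I * k 0) =
      (zz x - (k 1 - Complex.I * k 0)) + ((n 0 : ℤ) : ℂ) + Complex.I * ((n 1 : ℤ) : ℂ) := by
    ring
  rw [e, th_lat]
  have h : Complex.exp (2 * Real.pi * Complex.I * k 0 *
        (zz x + (n 0 : ℂ) + Complex.I * (n 1 : ℂ))) *
      Complex.exp (Real.pi * (n 1 : ℂ) ^ 2 - 2 * Real.pi * Complex.I * (n 1 : ℂ) *
        (zz x - (k 1 - Complex.I * k 0))) *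
      Complex.exp (2 * Real.pi * Complex.I * (n 1 : ℂ) * zz x - Real.pi * (n 1 : ℂ) ^ 2) =
      Complex.exp (2 * Real.pi * Complex.I * (k 0 * (n 0 : ℂ) + k 1 * (n 1 : ℂ))) *
        Complex.exp (2 * Real.pi * Complex.I * k 0 * zz x) := by
    rw [← Complex.exp_add, ← Complex.exp_add, ← Complex.exp_add]
    congr 1
    ring
  linear_combination (th (zz x - (k 1 - Complex.I * k 0)) * S x) * h

theorem exists_S_ne (a b : ℝ) : ∃ x : E 4, x 0 = a ∧ x 1 = b ∧ S x ≠ 0 := by
  let p : E 4 := WithLp.toLp 2 ![a, b, 0, 0]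
  by_cases h : S p = 0
  · refine ⟨p + (1 / 2 : ℝ) • (EuclideanSpace.single (tk 0) (1 : ℝ) : E 4), ?_, ?_, ?_⟩
    · simp [p, tk]
    · simp [p, tk]
    · intro h2
      have hee : ∀ x : E 4, ee x ≠ 0 := fun x => Complex.exp_ne_zero _
      have e1 : U 0 p + U 1 p = 0 := by
        unfold S at h
        exact (mul_eq_zero.1 h).resolve_left (hee _)
      have e2 : U 0 (p + (1 / 2 : ℝ) • (EuclideanSpace.single (tk 0) (1 : ℝ) : E 4)) +
          U 1 (p + (1 / 2 : ℝ) • (EuclideanSpace.single (tk 0) (1 : ℝ) : E 4)) = 0 := by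
        unfold S at h2
        exact (mul_eq_zero.1 h2).resolve_left (hee _)
      rw [U_fib, U_fib] at e2
      have hexp : Complex.exp (2 * Real.pi * Complex.I * ((1 / 2 : ℝ) : ℂ)) = -1 := by
        have : (2 * Real.pi * Complex.I * ((1 / 2 : ℝ) : ℂ)) = Real.pi * Complex.I := by
          push_cast
          ring
        rw [this, Complex.exp_pi_mul_I]
      simp only [if_true, zero_ne_one, if_false, zero_mul, Complex.exp_zero, one_mul, hexp] at e2
      have e3 : U 1 p = 0 := by linear_combination (e1 + e2) / 2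
      have e4 : U 0 p = 0 := by linear_combination (e1 - e2) / 2
      have := U_pos p
      rw [e3, e4] at this
      simp at this
  · exact ⟨p, rfl, rfl, h⟩

theorem fk_ne (k : Fin 2 → ℂ) : (fun x => fk k (zz x) * S x) ≠ 0 := by
  obtain ⟨x, h0, h1, hS⟩ := exists_S_ne (k 1 - Complex.I * k 0).re (k 1 - Complex.I * k 0).im
  intro h
  have h2 := congrFun h x
  simp only [Pi.zero_apply] at h2
  have hz : zz x = k 1 - Complex.I * k 0 := by
    unfold zz
    rw [h0, h1, mul_comm Complex.I (((k 1 - Complex.I * k 0).im : ℝ) : ℂ)]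
    exact Complex.re_add_im _
  have h3 : fk k (zz x) ≠ 0 := by
    unfold fk
    rw [hz, sub_self]
    exact mul_ne_zero (Complex.exp_ne_zero _) th_zero
  exact (mul_ne_zero h3 hS) h2

/-! ### Gaussian decay -/

def fG (z : ℂ) : ℂ := Complex.exp (-((Real.pi : ℂ) / 2 * z ^ 2))

theorem fG_diff : Differentiable ℂ fG := by
  unfold fG
  fun_prop

theorem deriv_fG (z : ℂ) : deriv fG z = -(Real.pi * z) * fG z := by
  have h2 : HasDerivAt (fun z : ℂ => -((Real.pi : ℂ) / 2 * z ^ 2)) (-(Real.pi * z)) z := by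
    have := ((hasDerivAt_pow 2 z).const_mul ((Real.pi : ℂ) / 2)).fun_neg
    refine this.congr_deriv ?_
    push_cast
    ring
  have h3 : HasDerivAt fG (Complex.exp (-((Real.pi : ℂ) / 2 * z ^ 2)) * (-(Real.pi * z))) z :=
    h2.cexp
  rw [h3.deriv]
  unfold fG
  ring

/-- square of the distance to the fibre -/
def rr (x : E 4) : ℝ := x 0 ^ 2 + x 1 ^ 2

theorem norm_gG (x : E 4) : ‖gg fG x‖ = Real.exp (-(Real.pi / 2 * rr x)) := by
  unfold gg fG ee
  rw [← Complex.exp_add, Complex.norm_exp]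
  congr 1
  unfold zz rr
  have e : (-((Real.pi : ℂ) / 2 * ((x 0 : ℂ) + Complex.I * (x 1 : ℂ)) ^ 2) +
      -((Real.pi : ℂ) * (x 1 : ℂ) ^ 2)) =
      ((-(Real.pi / 2 * (x 0 ^ 2 + x 1 ^ 2)) : ℝ) : ℂ) +
        ((-(Real.pi * x 0 * x 1) : ℝ) : ℂ) * Complex.I := by
    push_cast
    linear_combination (-((Real.pi : ℂ) / 2 * (x 1 : ℂ) ^ 2)) * Complex.I_sq
  rw [e, Complex.add_re, Complex.ofReal_re, Complex.re_ofReal_mul, Complex.I_re, mul_zero,
    add_zero]

theorem norm_U (k : Fin 2) (x : E 4) : ‖U k x‖ ≤ 1 := by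
  unfold U Bsec
  have h1 : (2 * Real.pi * Complex.I * (round (x 1 - sh k) : ℂ) * (x 0 : ℂ)) =
      ((2 * Real.pi * round (x 1 - sh k) * x 0 : ℝ) : ℂ) * Complex.I := by
    push_cast
    ring
  have h2 : (2 * Real.pi * Complex.I * (x (tk k) : ℂ)) =
      ((2 * Real.pi * x (tk k) : ℝ) : ℂ) * Complex.I := by
    push_cast
    ring
  rw [norm_mul, norm_mul, h1, h2, Complex.norm_exp_ofReal_mul_I, Complex.norm_exp_ofReal_mul_I,
    mul_one, mul_one, Complex.norm_real]
  unfold sig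
  rw [Real.norm_of_nonneg (Real.smoothTransition.nonneg _)]
  exact Real.smoothTransition.le_one _

theorem norm_DU : ∃ K : ℝ, 0 ≤ K ∧ ∀ (k : Fin 2) (j : Fin 4) (x : E 4),
    ‖D j (U k) x‖ ≤ K + 2 * Real.pi * (|x 1| + 1) := by
  have h1 : ∀ (k : Fin 2) (j : Fin 4), ∃ B : ℝ, 0 ≤ B ∧ ∀ y ∈ QQ, ‖D j (U k) y‖ ≤ B := by
    intro k j
    obtain ⟨B, hB⟩ := QQ_compact.exists_bound_of_continuousOn
      ((U_smooth k).D j).continuous.continuousOn
    exact ⟨|B|, abs_nonneg _, fun y hy => (hB y hy).trans (le_abs_self _)⟩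
  choose B hB0 hB using h1
  refine ⟨∑ k, ∑ j, B k j, Finset.sum_nonneg fun k _ => Finset.sum_nonneg fun j _ => hB0 k j,
    fun k j x => ?_⟩
  have h2 : B k j ≤ ∑ k, ∑ j, B k j :=
    (Finset.single_le_sum (f := fun j => B k j) (fun i _ => hB0 k i) (Finset.mem_univ j)).trans
      (Finset.single_le_sum (f := fun k => ∑ j, B k j)
        (fun i _ => Finset.sum_nonneg fun j _ => hB0 i j) (Finset.mem_univ k))
  obtain ⟨y, n, hy, hx, hn⟩ := exists_cube x
  have hφs : Sm (fun x : E 4 => Complex.exp (2 * Real.pi * Complex.I * (n 1 : ℂ) * (x 0 : ℂ))) :=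
    Complex.contDiff_exp.comp
      ((Sm.cstC _).mulC (Complex.ofRealCLM.contDiff.comp (Sm_coord 0)))
  have h0 := D_shift (U_smooth k) hφs (fun y => U_lat k y n) j y
  have hφn : ‖Complex.exp (2 * Real.pi * Complex.I * (n 1 : ℂ) * (y 0 : ℂ))‖ = 1 := by
    have : (2 * Real.pi * Complex.I * (n 1 : ℂ) * (y 0 : ℂ)) =
        ((2 * Real.pi * n 1 * y 0 : ℝ) : ℂ) * Complex.I := by
      push_cast
      ring
    rw [this, Complex.norm_exp_ofReal_mul_I]
  have hD : ‖D j (fun x : E 4 => Complex.exp (2 * Real.pi * Complex.I * (n 1 : ℂ) * (x 0 : ℂ))) y‖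
      ≤ 2 * Real.pi * (|x 1| + 1) := by
    have hc : Sm (fun x : E 4 => ((x 0 : ℝ) : ℂ)) := Complex.ofRealCLM.contDiff.comp (Sm_coord 0)
    have hf : Differentiable ℂ (fun z : ℂ => Complex.exp (2 * Real.pi * Complex.I * (n 1 : ℂ) * z))
      := by fun_prop
    have e := D_hol hf hc j y
    have hd : HasDerivAt (fun z : ℂ => Complex.exp (2 * Real.pi * Complex.I * (n 1 : ℂ) * z))
        (Complex.exp (2 * Real.pi * Complex.I * (n 1 : ℂ) * (y 0 : ℂ)) *
          (2 * Real.pi * Complex.I * (n 1 : ℂ) * 1)) (y 0 : ℂ) :=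
      ((hasDerivAt_id ((y 0 : ℝ) : ℂ)).const_mul (2 * Real.pi * Complex.I * (n 1 : ℂ))).cexp
    have e2 : D j (fun x : E 4 => Complex.exp (2 * Real.pi * Complex.I * (n 1 : ℂ) * (x 0 : ℂ))) y =
        deriv (fun z : ℂ => Complex.exp (2 * Real.pi * Complex.I * (n 1 : ℂ) * z)) (y 0 : ℂ) *
          D j (fun x : E 4 => ((x 0 : ℝ) : ℂ)) y := e
    rw [e2, hd.deriv, D_coord, norm_mul, norm_mul, hφn, one_mul, mul_one, norm_mul, norm_mul,
      norm_mul, Complex.norm_I, mul_one, Complex.norm_real, Complex.norm_ofNat,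
      Complex.norm_intCast, Real.norm_of_nonneg Real.pi_pos.le]
    have h3 : ‖(if (0 : Fin 4) = j then (1 : ℂ) else 0)‖ ≤ 1 := by
      split_ifs <;> simp
    have h4 := hn 1
    calc 2 * Real.pi * |(n 1 : ℝ)| * ‖(if (0 : Fin 4) = j then (1 : ℂ) else 0)‖
        ≤ 2 * Real.pi * |(n 1 : ℝ)| * 1 := mul_le_mul_of_nonneg_left h3 (by positivity)
      _ ≤ 2 * Real.pi * (|x 1| + 1) := by
          rw [mul_one]
          exact mul_le_mul_of_nonneg_left h4 (by positivity)
  rw [hx, h0]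
  rw [← hx]
  calc _ ≤ ‖D j (fun x : E 4 => Complex.exp (2 * Real.pi * Complex.I * (n 1 : ℂ) * (x 0 : ℂ))) y *
        U k y‖ + ‖Complex.exp (2 * Real.pi * Complex.I * (n 1 : ℂ) * (y 0 : ℂ)) *
          D j (U k) y‖ := norm_add_le _ _
    _ ≤ 2 * Real.pi * (|x 1| + 1) * 1 + 1 * B k j := by
        rw [norm_mul, norm_mul, hφn]
        refine add_le_add (mul_le_mul hD (norm_U k y) (norm_nonneg _) (by positivity)) ?_
        exact mul_le_mul_of_nonneg_left (hB k j y hy) (by norm_num)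
    _ ≤ _ := by linarith

theorem exp_bd (x : E 4) :
    (1 + |x 0| + |x 1|) * Real.exp (-(Real.pi / 2 * rr x)) ≤ 2 * Real.exp (-rr x) := by
  have hr : 0 ≤ rr x := by
    unfold rr
    positivity
  have h1 : 1 + |x 0| + |x 1| ≤ 2 + rr x / 2 := by
    unfold rr
    have a := sq_nonneg (|x 0| - 1)
    have b := sq_nonneg (|x 1| - 1)
    have c := sq_abs (x 0)
    have d := sq_abs (x 1)
    nlinarith
  have h2 : 1 + rr x / 2 ≤ Real.exp (rr x / 2) := by
    have := Real.add_one_le_exp (rr x / 2)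
    linarith
  have h3 : Real.exp (-(Real.pi / 2 * rr x)) ≤ Real.exp (-rr x) * Real.exp (-(rr x / 2)) := by
    rw [← Real.exp_add]
    refine Real.exp_le_exp.2 ?_
    have := Real.pi_gt_three
    nlinarith
  have h4 : Real.exp (rr x / 2) * Real.exp (-(rr x / 2)) = 1 := by
    rw [← Real.exp_add]
    simp
  have hp := Real.exp_pos (-rr x)
  have hq := Real.exp_pos (-(rr x / 2))
  calc (1 + |x 0| + |x 1|) * Real.exp (-(Real.pi / 2 * rr x))
      ≤ (2 * Real.exp (rr x / 2)) * (Real.exp (-rr x) * Real.exp (-(rr x / 2))) := by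
        refine mul_le_mul (by linarith) h3 (Real.exp_pos _).le (by positivity)
    _ = 2 * Real.exp (-rr x) * (Real.exp (rr x / 2) * Real.exp (-(rr x / 2))) := by ring
    _ = _ := by rw [h4, mul_one]

theorem gauss_bd : ∃ M : ℝ, ∀ x : E 4, ‖fG (zz x) * S x‖ ≤ M * Real.exp (-rr x) ∧
    ∀ j, ‖D j (fun x => fG (zz x) * S x) x‖ ≤ M * Real.exp (-rr x) := by
  obtain ⟨K, hK0, hK⟩ := norm_DU
  have hpi := Real.pi_pos
  refine ⟨2 * (6 * Real.pi + 2 * (K + 2 * Real.pi) + 2), fun x => ?_⟩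
  have hg := norm_gG x
  have hb := exp_bd x
  set G := Real.exp (-(Real.pi / 2 * rr x)) with hG
  have hG0 : 0 < G := Real.exp_pos _
  set q := 1 + |x 0| + |x 1| with hq
  have hq1 : 1 ≤ q := by
    have := abs_nonneg (x 0)
    have := abs_nonneg (x 1)
    linarith
  have hU : ‖U 0 x + U 1 x‖ ≤ 2 := (norm_add_le _ _).trans (by linarith [norm_U 0 x, norm_U 1 x])
  have hfin : ∀ {a c : ℝ}, 0 ≤ c → a ≤ c * (q * G) → a ≤ 2 * c * Real.exp (-rr x) := by
    intro a c hc ha
    calc a ≤ c * (q * G) := ha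
      _ ≤ c * (2 * Real.exp (-rr x)) := mul_le_mul_of_nonneg_left hb hc
      _ = _ := by ring
  have hc0 : 0 ≤ 6 * Real.pi + 2 * (K + 2 * Real.pi) + 2 := by positivity
  refine ⟨hfin hc0 ?_, fun j => hfin hc0 ?_⟩
  · have e : fG (zz x) * S x = gg fG x * (U 0 x + U 1 x) := by
      unfold S gg
      ring
    rw [e, norm_mul, hg]
    calc G * ‖U 0 x + U 1 x‖ ≤ G * 2 := mul_le_mul_of_nonneg_left hU hG0.le
      _ ≤ (6 * Real.pi + 2 * (K + 2 * Real.pi) + 2) * (1 * G) := by nlinarith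
      _ ≤ _ := mul_le_mul_of_nonneg_left (mul_le_mul_of_nonneg_right hq1 hG0.le) hc0
  · have hD : D j (fun x => fG (zz x) * S x) x =
        D j (gg fG) x * (U 0 x + U 1 x) + gg fG x * (D j (U 0) x + D j (U 1) x) := by
      rw [sol_eq, D_add (HH_smooth fG_diff 0) (HH_smooth fG_diff 1)]
      have e : ∀ k, D j (HH fG k) x = D j (gg fG) x * U k x + gg fG x * D j (U k) x := fun k =>
        D_mulC (gg_smooth fG_diff) (U_smooth k) j x
      rw [e, e]
      ring
    have hz : ‖zz x‖ ≤ |x 0| + |x 1| := by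
      unfold zz
      refine (norm_add_le _ _).trans ?_
      rw [norm_mul, Complex.norm_I, one_mul, Complex.norm_real, Complex.norm_real,
        Real.norm_eq_abs, Real.norm_eq_abs]
    have hDg : ‖D j (gg fG) x‖ ≤ 3 * Real.pi * q * G := by
      rw [D_gg fG_diff, deriv_fG]
      have i1 : ‖((if (0 : Fin 4) = j then (1 : ℂ) else 0) +
          Complex.I * (if (1 : Fin 4) = j then 1 else 0))‖ ≤ 1 := by
        fin_cases j <;> simp
      have i2 : ‖(if (1 : Fin 4) = j then -(2 * Real.pi * (x 1 : ℂ)) else 0)‖ ≤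
          2 * Real.pi * |x 1| := by
        split_ifs
        · rw [norm_neg, norm_mul, norm_mul, Complex.norm_real, Complex.norm_real,
            Real.norm_eq_abs, Real.norm_eq_abs, abs_of_pos hpi, Complex.norm_ofNat]
        · rw [norm_zero]
          positivity
      have i3 : -(Real.pi * zz x) * fG (zz x) * ((if (0 : Fin 4) = j then 1 else 0) +
          Complex.I * (if (1 : Fin 4) = j then 1 else 0)) * ee x =
          (-(Real.pi * zz x)) * ((if (0 : Fin 4) = j then (1 : ℂ) else 0) +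
          Complex.I * (if (1 : Fin 4) = j then 1 else 0)) * gg fG x := by
        unfold gg
        ring
      rw [i3]
      refine (norm_add_le _ _).trans ?_
      rw [norm_mul, norm_mul, norm_mul _ (gg fG x), norm_neg, norm_mul, hg, Complex.norm_real,
        Real.norm_eq_abs, abs_of_pos hpi]
      have j1 : Real.pi * ‖zz x‖ * ‖((if (0 : Fin 4) = j then (1 : ℂ) else 0) +
          Complex.I * (if (1 : Fin 4) = j then 1 else 0))‖ ≤ Real.pi * (|x 0| + |x 1|) * 1 :=
        mul_le_mul (mul_le_mul_of_nonneg_left hz hpi.le) i1 (norm_nonneg _) (by positivity)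
      calc _ ≤ (Real.pi * (|x 0| + |x 1|) * 1) * G + 2 * Real.pi * |x 1| * G :=
            add_le_add (mul_le_mul_of_nonneg_right j1 hG0.le)
              (mul_le_mul_of_nonneg_right i2 hG0.le)
        _ = Real.pi * (|x 0| + 3 * |x 1|) * G := by ring
        _ ≤ 3 * Real.pi * q * G := by
            refine mul_le_mul_of_nonneg_right ?_ hG0.le
            have a := abs_nonneg (x 0)
            rw [hq]
            nlinarith
    have hDU : ‖D j (U 0) x + D j (U 1) x‖ ≤ 2 * (K + 2 * Real.pi) * q := by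
      refine (norm_add_le _ _).trans ?_
      have a := hK 0 j x
      have b := hK 1 j x
      have c := abs_nonneg (x 0)
      have d := abs_nonneg (x 1)
      have e1 : K ≤ K * q := by nlinarith
      have e2 : 2 * Real.pi * (|x 1| + 1) ≤ 2 * Real.pi * q := by
        refine mul_le_mul_of_nonneg_left ?_ (by positivity)
        linarith
      nlinarith
    rw [hD]
    refine (norm_add_le _ _).trans ?_
    rw [norm_mul, norm_mul, hg]
    calc ‖D j (gg fG) x‖ * ‖U 0 x + U 1 x‖ + G * ‖D j (U 0) x + D j (U 1) x‖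
        ≤ (3 * Real.pi * q * G) * 2 + G * (2 * (K + 2 * Real.pi) * q) :=
          add_le_add (mul_le_mul hDg hU (norm_nonneg _) (by positivity))
            (mul_le_mul_of_nonneg_left hDU hG0.le)
      _ = (6 * Real.pi + 2 * (K + 2 * Real.pi)) * (q * G) := by ring
      _ ≤ (6 * Real.pi + 2 * (K + 2 * Real.pi) + 2) * (q * G) :=
          mul_le_mul_of_nonneg_right (by linarith) (by positivity)

theorem gauss_ne : (fun x => fG (zz x) * S x) ≠ 0 := by
  obtain ⟨x, _, _, hS⟩ := exists_S_ne 0 0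
  intro h
  have h2 := congrFun h x
  simp only [Pi.zero_apply] at h2
  exact (mul_ne_zero (Complex.exp_ne_zero _) hS) h2

theorem sol_per (f : ℂ → ℂ) (x : E 4) (n : Fin 4 → ℤ) (h0 : n 0 = 0) (h1 : n 1 = 0) :
    f (zz (x + latE n)) * S (x + latE n) = f (zz x) * S x := by
  rw [zz_lat, S_lat, h0, h1]
  simp

end Pool.Agent.Lib.MP_c8757e_WG
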